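import Pool.Agent.J6H45.CoordRestr.Basic

/-!
# Small Lipschitz perturbations of the identity factor into maps changing one coordinate
-/

open scoped NNReal Topology
open Set

namespace Pool.Agent.J6H45.CoordRestr

variable {n : ℕ}

/-- Only one coordinate is changed, by a function with Lipschitz constant `< 1`. -/
def SmallA (n : ℕ) : Set (E n ≃ₜ E n) :=
  {h | ∃ i : Fin n, ∃ c : ℝ≥0, c < 1 ∧ ∃ φ : E n → ℝ, LipschitzWith c φ ∧
    ∀ x : E n, h x = x + φ x • EuclideanSpace.single i (1 : ℝ)}

/-- A perturbation of the identity by a map with Lipschitz constant `< 1` is a homeomorphism. -/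
theorem exists_homeo_of_lip {u : E n → E n} {c : ℝ≥0} (hc : c < 1) (hu : LipschitzWith c u) :
    ∃ h : E n ≃ₜ E n, ∀ x, h x = x + u x := by
  have hA : ApproximatesLinearOn (fun x => x + u x)
      ((ContinuousLinearEquiv.refl ℝ (E n) : E n ≃L[ℝ] E n) : E n →L[ℝ] E n) univ c := by
    intro x _ y _
    have := hu.dist_le_mul x y
    rw [dist_eq_norm, dist_eq_norm] at this
    have e : (x + u x) - (y + u y) - (((ContinuousLinearEquiv.refl ℝ (E n) : E n ≃L[ℝ] E n) :
      E n →L[ℝ] E n) (x - y)) = u x - u y := by
      simp; abel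
    have e2 : (fun x => x + u x) x - (fun x => x + u x) y - (((ContinuousLinearEquiv.refl ℝ (E n) :
      E n ≃L[ℝ] E n) : E n →L[ℝ] E n) (x - y)) = u x - u y := e
    rw [e2]
    exact this
  have hc' : Subsingleton (E n) ∨
      c < ‖((ContinuousLinearEquiv.refl ℝ (E n)).symm : E n →L[ℝ] E n)‖₊⁻¹ := by
    by_cases hs : Subsingleton (E n)
    · exact Or.inl hs
    · right
      have : Nontrivial (E n) := not_subsingleton_iff_nontrivial.1 hs
      have h1 : ‖((ContinuousLinearEquiv.refl ℝ (E n)).symm : E n →L[ℝ] E n)‖₊ = 1 := by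
        have : ((ContinuousLinearEquiv.refl ℝ (E n)).symm : E n →L[ℝ] E n)
            = ContinuousLinearMap.id ℝ (E n) := by ext; simp
        rw [this]
        exact ContinuousLinearMap.nnnorm_id
      rw [h1]
      simpa using hc
  exact ⟨hA.toHomeomorph _ hc', fun x => rfl⟩

/-- the first `j` coordinates of `u`, the others being `0` -/
noncomputable def trunc (u : E n → E n) (j : ℕ) (x : E n) : E n :=
  WithLp.toLp 2 (fun i : Fin n => if (i : ℕ) < j then u x i else 0)

theorem trunc_apply (u : E n → E n) (j : ℕ) (x : E n) (i : Fin n) :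
    trunc u j x i = if (i : ℕ) < j then u x i else 0 := rfl

theorem trunc_lip {u : E n → E n} {c : ℝ≥0} (hu : LipschitzWith c u) (j : ℕ) :
    LipschitzWith c (trunc u j) := by
  refine LipschitzWith.of_dist_le_mul fun x y => ?_
  refine le_trans ?_ (hu.dist_le_mul x y)
  rw [EuclideanSpace.dist_eq, EuclideanSpace.dist_eq]
  apply Real.sqrt_le_sqrt
  apply Finset.sum_le_sum
  intro i _
  rw [trunc_apply, trunc_apply]
  by_cases h : (i : ℕ) < j
  · simp [h]
  · simp only [h, if_false, dist_self]
    rw [zero_pow two_ne_zero]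
    exact sq_nonneg _

/-- coordinates are `1`-Lipschitz -/
theorem coord_lip (i : Fin n) : LipschitzWith 1 (fun x : E n => x i) := by
  refine LipschitzWith.of_dist_le_mul fun x y => ?_
  have := EuclideanSpace.norm_eq (x - y)
  rw [dist_eq_norm, dist_eq_norm, NNReal.coe_one, one_mul, this]
  rw [Real.norm_eq_abs, ← Real.sqrt_sq_eq_abs]
  apply Real.sqrt_le_sqrt
  have h := Finset.single_le_sum (f := fun k => ‖(x - y) k‖ ^ 2)
    (fun k _ => by positivity) (Finset.mem_univ i)
  simpa using h

/-- A perturbation of the identity by a map with Lipschitz constant `c < 1/2` is a composition of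
maps changing only one coordinate, by a function with Lipschitz constant `< 1`. -/
theorem small_mem_closure {u : E n → E n} {c : ℝ≥0} (hc : c < 1 / 2) (hu : LipschitzWith c u)
    {h : E n ≃ₜ E n} (hh : ∀ x, h x = x + u x) : h ∈ Submonoid.closure (SmallA n) := by
  have hc' : (c : ℝ) < 1 / 2 := by exact_mod_cast hc
  have hc1 : c < 1 := hc.trans (by norm_num)
  have key : ∀ j : ℕ, j ≤ n → ∀ k : E n ≃ₜ E n, (∀ x, k x = x + trunc u j x) →
      k ∈ Submonoid.closure (SmallA n) := by
    intro j
    induction j with
    | zero =>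
      intro _ k hk
      have : k = 1 := by
        ext x i
        rw [hk x]
        simp [trunc_apply]
      rw [this]
      exact one_mem _
    | succ j ih =>
      intro hj k hk
      obtain ⟨k', hk'⟩ := exists_homeo_of_lip hc1 (trunc_lip hu j)
      have hmem := ih (by omega) k' hk'
      have hkk : k = (k * k'⁻¹) * k' := by group
      rw [hkk]
      refine mul_mem (Submonoid.subset_closure ?_) hmem
      -- `k'⁻¹` is Lipschitz with constant `1 / (1 - c)`
      have hlow : ∀ x y, dist x y ≤ (1 / (1 - c) : ℝ) * dist (k' x) (k' y) := by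
        intro x y
        have h1 : dist x y ≤ dist (k' x) (k' y) + c * dist x y := by
          have e : x - y = (k' x - k' y) - (trunc u j x - trunc u j y) := by
            rw [hk', hk']; abel
          have h2 := (trunc_lip hu j).dist_le_mul x y
          rw [dist_eq_norm (trunc u j x)] at h2
          calc dist x y = ‖(k' x - k' y) - (trunc u j x - trunc u j y)‖ := by
                rw [dist_eq_norm, ← e]
            _ ≤ ‖k' x - k' y‖ + ‖trunc u j x - trunc u j y‖ := norm_sub_le _ _
            _ ≤ dist (k' x) (k' y) + c * dist x y := by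
                rw [dist_eq_norm (k' x)]; gcongr
        have h3 : 0 < 1 - (c : ℝ) := by linarith
        rw [one_div, inv_mul_eq_div, le_div_iff₀ h3]
        nlinarith
      have hlip : LipschitzWith (Real.toNNReal (c / (1 - c)))
          (fun y => u (k'.symm y) ⟨j, by omega⟩) := by
        refine LipschitzWith.of_dist_le_mul fun x y => ?_
        have h3 : 0 < 1 - (c : ℝ) := by linarith
        have h4 : (0 : ℝ) ≤ c / (1 - c) := div_nonneg c.coe_nonneg h3.le
        rw [Real.coe_toNNReal _ h4]
        have h5 := (coord_lip (⟨j, by omega⟩ : Fin n)).dist_le_mul (u (k'.symm x)) (u (k'.symm y))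
        have h6 := hu.dist_le_mul (k'.symm x) (k'.symm y)
        have h7 := hlow (k'.symm x) (k'.symm y)
        rw [Homeomorph.apply_symm_apply, Homeomorph.apply_symm_apply] at h7
        rw [NNReal.coe_one, one_mul] at h5
        calc _ ≤ (c : ℝ) * dist (k'.symm x) (k'.symm y) := h5.trans h6
          _ ≤ c * ((1 / (1 - c) : ℝ) * dist x y) := by gcongr
          _ = c / (1 - c) * dist x y := by ring
      refine ⟨⟨j, by omega⟩, _, ?_, _, hlip, ?_⟩
      · rw [← NNReal.coe_lt_coe, Real.coe_toNNReal _ (div_nonneg c.coe_nonneg (by linarith)),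
          NNReal.coe_one, div_lt_one (by linarith)]
        linarith
      · intro y
        obtain ⟨x, rfl⟩ := k'.surjective y
        have e1 : (k * k'⁻¹) (k' x) = k x := by simp
        rw [e1, Homeomorph.symm_apply_apply, hk, hk']
        ext i
        simp only [PiLp.add_apply, PiLp.smul_apply, trunc_apply, PiLp.single_apply,
          smul_eq_mul]
        by_cases hi : (i : ℕ) < j
        · have : i ≠ (⟨j, by omega⟩ : Fin n) := by
            intro h; rw [h] at hi; simp at hi
          simp [hi, this, Nat.lt_succ_of_lt hi]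
        · by_cases hi' : (i : ℕ) = j
          · have : i = (⟨j, by omega⟩ : Fin n) := Fin.ext hi'
            rw [← this]
            simp [hi']
          · have h1 : ¬ (i : ℕ) < j + 1 := by omega
            have : i ≠ (⟨j, by omega⟩ : Fin n) := by
              intro h; rw [h] at hi'; simp at hi'
            simp [hi, h1, this]
  refine key n le_rfl h fun x => ?_
  rw [hh]
  congr 1
  ext i
  simp [trunc_apply]

/-- members of `SmallA` are of type A -/
theorem SmallA_subset_TypeA : SmallA n ⊆ TypeA n := by
  rintro h ⟨i, c, _, φ, _, hφ⟩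
  refine ⟨i, fun x j hj => ?_⟩
  rw [hφ]
  simp [hj]

end Pool.Agent.J6H45.CoordRestr
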