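import Pool.Agent.J6H45.CoordRestr.Smooth

/-!
# Homeomorphisms changing one coordinate are limits of `C^∞` diffeomorphisms, continued
-/

open scoped NNReal Topology ContDiff Convolution
open Set MeasureTheory

namespace Pool.Agent.J6H45.CoordRestr

variable {n : ℕ}

/-- Replace the `i`-th coordinate of the point by `σ * (G x + δ * x i)`. -/
noncomputable def replace (i : Fin n) (σ δ : ℝ) (G : E n → ℝ) (x : E n) : E n :=
  WithLp.toLp 2 (fun j => if j = i then σ * (G x + δ * x i) else x j)

theorem replace_same (i : Fin n) (σ δ : ℝ) (G : E n → ℝ) (x : E n) :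
    replace i σ δ G x i = σ * (G x + δ * x i) := by
  simp [replace]

theorem replace_ne {i j : Fin n} (hj : j ≠ i) (σ δ : ℝ) (G : E n → ℝ) (x : E n) :
    replace i σ δ G x j = x j := by
  simp [replace, hj]

theorem replace_contDiff (i : Fin n) (σ δ : ℝ) {G : E n → ℝ} (hG : ContDiff ℝ ∞ G) :
    ContDiff ℝ ∞ (replace i σ δ G) := by
  rw [contDiff_euclidean]
  intro j
  by_cases hj : j = i
  · subst hj
    simp only [replace_same]
    fun_prop
  · simp only [replace_ne hj]
    fun_prop

/-- the derivative along the `i`-th axis is nonnegative -/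
theorem fderiv_nonneg {i : Fin n} {G : E n → ℝ} (hG : ContDiff ℝ ∞ G)
    (hmono : ∀ x : E n, Monotone fun s : ℝ => G (x + s • ee i)) (x : E n) :
    0 ≤ fderiv ℝ G x (ee i) := by
  have h1 : HasFDerivAt G (fderiv ℝ G x) (x + (0 : ℝ) • ee i) := by
    rw [zero_smul, add_zero]
    exact (hG.differentiable (by simp)).differentiableAt.hasFDerivAt
  have h2 : HasDerivAt (fun s : ℝ => x + s • ee i) (ee i) 0 := by
    have := ((hasDerivAt_id (0 : ℝ)).smul_const (ee i)).const_add x
    simpa using this
  have h3 : HasDerivAt (fun s : ℝ => G (x + s • ee i)) (fderiv ℝ G x (ee i)) 0 :=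
    h1.comp_hasDerivAt (0 : ℝ) h2
  rw [← h3.deriv]
  exact (hmono x).deriv_nonneg

theorem replace_bijective {i : Fin n} {σ δ : ℝ} (hσ : σ = 1 ∨ σ = -1) (hδ : 0 < δ)
    {G : E n → ℝ} (hG : ContDiff ℝ ∞ G)
    (hmono : ∀ x : E n, Monotone fun s : ℝ => G (x + s • ee i)) :
    Function.Bijective (replace i σ δ G) := by
  have hσσ : σ * σ = 1 := by rcases hσ with h | h <;> rw [h] <;> norm_num
  -- strict monotonicity along lines
  have hstrict : ∀ x : E n, StrictMono fun s : ℝ => G (x + s • ee i) + δ * (x + s • ee i) i := by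
    intro x s t hst
    have h1 := hmono x hst.le
    simp only at h1 ⊢
    have h2 : (x + s • ee i) i = x i + s := by simp
    have h3 : (x + t • ee i) i = x i + t := by simp
    rw [h2, h3]
    nlinarith
  constructor
  · intro x y hxy
    have hne : ∀ j, j ≠ i → x j = y j := by
      intro j hj
      have := congrArg (fun z : E n => z j) hxy
      simpa only [replace_ne hj] using this
    have heq : y = x + (y i - x i) • ee i := by
      ext j
      by_cases hj : j = i
      · subst hj; simp
      · simp [hj, hne j hj]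
    have h1 := congrArg (fun z : E n => z i) hxy
    simp only [replace_same] at h1
    have h2 : G x + δ * x i = G y + δ * y i := by
      have := congrArg (fun r => σ * r) h1
      simp only [← mul_assoc, hσσ, one_mul] at this
      exact this
    have h3 : (fun s : ℝ => G (x + s • ee i) + δ * (x + s • ee i) i) 0
        = (fun s : ℝ => G (x + s • ee i) + δ * (x + s • ee i) i) (y i - x i) := by
      simp only [← heq]
      simpa using h2
    have h4 := (hstrict x).injective h3
    rw [heq, ← h4]
    simp
  · intro y
    -- the line through `y`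
    have hcont : Continuous fun s : ℝ => G (y + s • ee i) + δ * (y + s • ee i) i := by
      have := hG.continuous
      fun_prop
    have htop : Filter.Tendsto (fun s : ℝ => G (y + s • ee i) + δ * (y + s • ee i) i)
        Filter.atTop Filter.atTop := by
      have h1 : Filter.Tendsto (fun s : ℝ => G y + δ * (y i + s)) Filter.atTop Filter.atTop := by
        apply Filter.tendsto_atTop_add_const_left
        apply Filter.Tendsto.const_mul_atTop hδ
        exact Filter.tendsto_atTop_add_const_left _ _ Filter.tendsto_id
      refine Filter.tendsto_atTop_mono' _ ?_ h1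
      filter_upwards [Filter.eventually_ge_atTop 0] with s hs
      have h2 := hmono y hs
      simp only [zero_smul, add_zero] at h2
      have h3 : (y + s • ee i) i = y i + s := by simp
      rw [h3]
      linarith
    have hbot : Filter.Tendsto (fun s : ℝ => G (y + s • ee i) + δ * (y + s • ee i) i)
        Filter.atBot Filter.atBot := by
      have h1 : Filter.Tendsto (fun s : ℝ => G y + δ * (y i + s)) Filter.atBot Filter.atBot := by
        apply Filter.tendsto_atBot_add_const_left
        apply Filter.Tendsto.const_mul_atBot hδ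
        exact Filter.tendsto_atBot_add_const_left _ _ Filter.tendsto_id
      refine Filter.tendsto_atBot_mono' _ ?_ h1
      filter_upwards [Filter.eventually_le_atBot 0] with s hs
      have h2 := hmono y hs
      simp only [zero_smul, add_zero] at h2
      have h3 : (y + s • ee i) i = y i + s := by simp
      rw [h3]
      linarith
    obtain ⟨s, hs⟩ := hcont.surjective htop hbot (σ * y i)
    refine ⟨y + s • ee i, ?_⟩
    ext j
    by_cases hj : j = i
    · subst hj
      rw [replace_same]
      simp only at hs
      rw [hs, ← mul_assoc, hσσ, one_mul]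
    · rw [replace_ne hj]
      simp [hj]

/-- the map `replace` is a `C^∞` diffeomorphism -/
theorem replace_diffeo {i : Fin n} {σ δ : ℝ} (hσ : σ = 1 ∨ σ = -1) (hδ : 0 < δ)
    {G : E n → ℝ} (hG : ContDiff ℝ ∞ G)
    (hmono : ∀ x : E n, Monotone fun s : ℝ => G (x + s • ee i)) :
    ∃ k ∈ Diffeos n ⊤, ∀ x, k x = replace i σ δ G x := by
  have hσ0 : σ ≠ 0 := by rcases hσ with h | h <;> rw [h] <;> norm_num
  have hC := replace_contDiff i σ δ hG
  have hbij := replace_bijective hσ hδ hG hmono
  have hder : ∀ x, HasFDerivAt (replace i σ δ G) (fderiv ℝ (replace i σ δ G) x) x := fun x =>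
    (hC.differentiable (by simp)).differentiableAt.hasFDerivAt
  -- coordinates of the derivative
  have hcoord_ne : ∀ x v j, j ≠ i → fderiv ℝ (replace i σ δ G) x v j = v j := by
    intro x v j hj
    have h1 : HasFDerivAt (fun z => replace i σ δ G z j)
        ((EuclideanSpace.proj j).comp (fderiv ℝ (replace i σ δ G) x)) x :=
      (EuclideanSpace.proj (𝕜 := ℝ) j).hasFDerivAt.comp x (hder x)
    have h2 : HasFDerivAt (fun z => replace i σ δ G z j) (EuclideanSpace.proj (𝕜 := ℝ) j) x := by
      simp only [replace_ne hj]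
      exact (EuclideanSpace.proj (𝕜 := ℝ) j).hasFDerivAt
    have h3 := h1.unique h2
    have h4 := congrArg (fun L : E n →L[ℝ] ℝ => L v) h3
    simpa using h4
  have hcoord_same : ∀ x v, fderiv ℝ (replace i σ δ G) x v i
      = σ * (fderiv ℝ G x v + δ * v i) := by
    intro x v
    have h1 : HasFDerivAt (fun z => replace i σ δ G z i)
        ((EuclideanSpace.proj i).comp (fderiv ℝ (replace i σ δ G) x)) x :=
      (EuclideanSpace.proj (𝕜 := ℝ) i).hasFDerivAt.comp x (hder x)
    have hGx : HasFDerivAt G (fderiv ℝ G x) x :=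
      (hG.differentiable (by simp)).differentiableAt.hasFDerivAt
    have h2 : HasFDerivAt (fun z => replace i σ δ G z i)
        (σ • (fderiv ℝ G x + δ • (EuclideanSpace.proj (𝕜 := ℝ) i : E n →L[ℝ] ℝ))) x := by
      simp only [replace_same]
      exact (hGx.add (((EuclideanSpace.proj (𝕜 := ℝ) i :
        E n →L[ℝ] ℝ).hasFDerivAt).const_mul δ)).const_mul σ
    have h3 := h1.unique h2
    have h4 := congrArg (fun L : E n →L[ℝ] ℝ => L v) h3
    simpa [mul_add] using h4
  have hinj : ∀ x, Function.Injective (fderiv ℝ (replace i σ δ G) x) := by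
    intro x
    rw [injective_iff_map_eq_zero]
    intro v hv
    have h1 : ∀ j, j ≠ i → v j = 0 := by
      intro j hj
      rw [← hcoord_ne x v j hj, hv]
      rfl
    have h2 : v = v i • ee i := by
      ext j
      by_cases hj : j = i
      · subst hj; simp
      · simp [hj, h1 j hj]
    have h3 := hcoord_same x v
    rw [hv] at h3
    have h4 : fderiv ℝ G x v = v i * fderiv ℝ G x (ee i) := by
      conv_lhs => rw [h2]
      simp
    have h5 : (0 : E n) i = 0 := rfl
    rw [h5, h4] at h3
    have h6 := fderiv_nonneg hG hmono x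
    have h7 : v i * (fderiv ℝ G x (ee i) + δ) = 0 := by
      have := (mul_eq_zero.1 h3.symm).resolve_left hσ0
      linarith
    have h8 : v i = 0 := by
      rcases mul_eq_zero.1 h7 with h | h
      · exact h
      · linarith
    rw [h2, h8, zero_smul]
  let D : E n → (E n ≃L[ℝ] E n) := fun x =>
    ((fderiv ℝ (replace i σ δ G) x : E n →ₗ[ℝ] E n).linearEquivOfInjective (hinj x)
      rfl).toContinuousLinearEquiv
  have hD : ∀ x, (D x : E n →L[ℝ] E n) = fderiv ℝ (replace i σ δ G) x := by
    intro x; ext v; rfl
  have hopen : IsOpenMap (replace i σ δ G) := by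
    rw [isOpenMap_iff_nhds_le]
    intro x
    have hs : HasStrictFDerivAt (replace i σ δ G) (D x : E n →L[ℝ] E n) x := by
      rw [hD]
      exact hC.contDiffAt.hasStrictFDerivAt (by simp)
    rw [hs.map_nhds_eq_of_equiv]
  let k : E n ≃ₜ E n := (Equiv.ofBijective _ hbij).toHomeomorphOfContinuousOpen hC.continuous hopen
  have hk : ∀ x, k x = replace i σ δ G x := fun x => rfl
  refine ⟨k, ⟨hC, ?_⟩, hk⟩
  exact k.contDiff_symm (f₀' := D) (fun a => by rw [hD]; exact hder a) hC

/-- **Every homeomorphism of `E^n` changing one coordinate is a limit of `C^∞` diffeomorphisms.** -/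
theorem typeA_approx {h : E n ≃ₜ E n} (hh : h ∈ TypeA n) : Approximable (Diffeos n ⊤) h := by
  obtain ⟨i, hi⟩ := hh
  obtain ⟨σ, hσ, hmono⟩ := typeA_mono hi
  rw [approximable_iff_ball]
  intro R hR ε hε
  have hF : Continuous fun x => σ * h x i := by fun_prop
  obtain ⟨G, hG, hGmono, hGapprox⟩ := smooth_mono_approx hF i (fun x => (hmono x).monotone) R
    (ε := ε / 4) (by positivity)
  have hδ : 0 < ε / (4 * (R + 1)) := by positivity
  obtain ⟨k, hk, hkx⟩ := replace_diffeo (i := i) hσ hδ hG hGmono
  refine ⟨k, hk, fun x hx => ?_⟩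
  have hx' : ‖x‖ ≤ R := by simpa using hx
  have hσσ : σ * σ = 1 := by rcases hσ with h | h <;> rw [h] <;> norm_num
  have hσa : |σ| = 1 := by rcases hσ with h | h <;> rw [h] <;> norm_num
  have e : k x - h x = (k x i - h x i) • ee i := by
    ext j
    by_cases hj : j = i
    · subst hj; simp
    · rw [PiLp.sub_apply, hkx, replace_ne hj, hi _ j hj]
      simp [hj]
  rw [dist_eq_norm, e, norm_smul, PiLp.norm_single, norm_one, mul_one, Real.norm_eq_abs, hkx,
    replace_same]
  have e2 : σ * (G x + ε / (4 * (R + 1)) * x i) - h x i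
      = σ * ((G x - σ * h x i) + ε / (4 * (R + 1)) * x i) := by
    have : σ * (σ * h x i) = h x i := by rw [← mul_assoc, hσσ, one_mul]
    linear_combination this
  rw [e2, abs_mul, hσa, one_mul]
  have h1 : |x i| ≤ R := by
    have := (coord_norm_le x i)
    exact this.trans hx'
  calc |(G x - σ * h x i) + ε / (4 * (R + 1)) * x i|
      ≤ |G x - σ * h x i| + |ε / (4 * (R + 1)) * x i| := abs_add_le _ _
    _ ≤ ε / 4 + ε / (4 * (R + 1)) * R := by
        rw [abs_mul, abs_of_pos hδ]
        gcongr
        exact hGapprox x hx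
    _ ≤ ε / 4 + ε / 4 := by
        gcongr
        rw [div_mul_eq_mul_div, div_le_div_iff₀ (by positivity) (by norm_num)]
        nlinarith
    _ < ε := by linarith

end Pool.Agent.J6H45.CoordRestr
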