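import Pool.Agent.J6H45.CoordRestr.TypeBApprox
import Pool.Agent.J6H45.CoordRestr.Smooth2

/-!
# Main theorems
-/

open scoped NNReal Topology
open Set

namespace Pool.Agent.J6H45.CoordRestr

variable {n : ℕ}

theorem Diffeos_mul {r : ℕ∞} {a b : E n ≃ₜ E n} (ha : a ∈ Diffeos n r) (hb : b ∈ Diffeos n r) :
    a * b ∈ Diffeos n r := by
  refine ⟨ha.1.comp hb.1, ?_⟩
  have : ((a * b : E n ≃ₜ E n).symm : E n → E n) = b.symm ∘ a.symm := rfl
  rw [this]
  exact hb.2.comp ha.2

theorem Diffeos_one {r : ℕ∞} : (1 : E n ≃ₜ E n) ∈ Diffeos n r :=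
  ⟨contDiff_id, contDiff_id⟩

theorem Diffeos_mono {r s : ℕ∞} (hrs : r ≤ s) : Diffeos n s ⊆ Diffeos n r :=
  fun _ hh => ⟨hh.1.of_le (by exact_mod_cast hrs), hh.2.of_le (by exact_mod_cast hrs)⟩

/-- members of `G(S_A^n)` are limits of `C^∞` diffeomorphisms -/
theorem GA_approx {g : E n ≃ₜ E n} (hg : g ∈ GA n) : Approximable (Diffeos n ⊤) g :=
  GA_induction (P := fun g => Approximable (Diffeos n ⊤) g) (Approximable.of_mem Diffeos_one)
    (fun _ hh => typeA_approx hh) (fun _ _ ha hb => ha.mul (fun _ h1 _ h2 => Diffeos_mul h1 h2) hb)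
    hg

/-- `C^1` diffeomorphisms are limits of members of `G(S_A^n)` -/
theorem diffeo_approx_GA {h : E n ≃ₜ E n} (hh : h ∈ Diffeos n 1) :
    Approximable (GA n : Set (E n ≃ₜ E n)) h := by
  intro B hB ε hε
  obtain ⟨g, hg, hgx⟩ := diffeo_agree_GA hh hB
  exact ⟨g, hg, 0, hε, fun p hp => by rw [hgx p hp, dist_self]⟩

/-- **Limits of members of `G(S_A^n)` are the limits of diffeomorphisms.** -/
theorem main_A (h : E n ≃ₜ E n) :
    List.TFAE [Approximable (GA n : Set (E n ≃ₜ E n)) h, Approximable (Diffeos n ⊤) h,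
      Approximable (Diffeos n 1) h] := by
  tfae_have 1 → 2 := fun H => H.trans fun t ht => GA_approx ht
  tfae_have 2 → 3 := fun H => H.trans fun t ht => Approximable.of_mem (Diffeos_mono le_top ht)
  tfae_have 3 → 1 := fun H => H.trans fun t ht => diffeo_approx_GA ht
  tfae_finish

/-- reflections are in `G(S_B)` -/
theorem reflection_mem_GB {h : E 3 ≃ₜ E 3} (hh : h ∈ Reflections 3) : h ∈ GB := by
  obtain ⟨i, hi⟩ := hh
  fin_cases i
  · refine mem_GB_01 (α := fun q => - q.1) (by fun_prop) fun p => ?_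
    apply ext3 <;> simp [hi]
  · refine mem_GB_12 (β := fun q => - q.1) (by fun_prop) fun p => ?_
    apply ext3 <;> simp [hi]
  · have h1 : cyc⁻¹ * h * cyc ∈ GB := by
      refine mem_GB_01 (α := fun q => - q.1) (by fun_prop) fun p => ?_
      simp only [Homeomorph.mul_apply, Homeomorph.inv_apply, cyc_symm_apply, cyc_apply]
      apply ext3 <;> simp [hi]
    have h2 : h = cyc * (cyc⁻¹ * h * cyc) * cyc⁻¹ := by group
    rw [h2]
    exact mul_mem (mul_mem cyc_mem h1) (inv_mem cyc_mem)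

theorem MA_approx_GB {h : E 3 ≃ₜ E 3} (hh : h ∈ MA 3) :
    Approximable (GB : Set (E 3 ≃ₜ E 3)) h := by
  unfold MA at hh
  induction hh using Submonoid.closure_induction with
  | mem x hx =>
    rcases hx with hx | hx
    · exact small_approx hx
    · exact Approximable.of_mem (reflection_mem_GB hx)
  | one => exact Approximable.of_mem (one_mem _)
  | mul x y _ _ hx hy => exact hx.mul (fun a ha b hb => mul_mem ha hb) hy

/-- `C^1` diffeomorphisms of `E^3` are limits of members of `G(S_B)` -/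
theorem diffeo_approx_GB {h : E 3 ≃ₜ E 3} (hh : h ∈ Diffeos 3 1) :
    Approximable (GB : Set (E 3 ≃ₜ E 3)) h := by
  intro B hB ε hε
  obtain ⟨R, hR⟩ := hB.subset_closedBall (0 : E 3)
  obtain ⟨g, hg, hgx⟩ := diffeo_agree hh.1 hh.2 R
  obtain ⟨k, hk, δ, hδ, hkx⟩ := MA_approx_GB hg B hB ε hε
  exact ⟨k, hk, δ, hδ, fun p hp => by rw [← hgx p (hR hp)]; exact hkx p hp⟩

/-- **Limits of diffeomorphisms of `E^3`, or of members of `G(S_A^3)`, are limits of members of
`G(S_B)`.** -/
theorem main_B (h : E 3 ≃ₜ E 3)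
    (hh : Approximable (GA 3 : Set (E 3 ≃ₜ E 3)) h ∨ Approximable (Diffeos 3 1) h) :
    Approximable (GB : Set (E 3 ≃ₜ E 3)) h := by
  have h1 : Approximable (Diffeos 3 1) h := by
    rcases hh with H | H
    · exact ((main_A h).out 0 2).1 H
    · exact H
  exact h1.trans fun t ht => diffeo_approx_GB ht

end Pool.Agent.J6H45.CoordRestr
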