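import Pool.Agent.J6H45.CoordRestr.Defs

open scoped NNReal Topology
open Set

namespace Pool.Agent.J6H45.CoordRestr

variable {n : ℕ}

/-- the working form of approximability: compact balls, strict inequality -/
theorem approximable_iff_ball {S : Set (E n ≃ₜ E n)} {h : E n ≃ₜ E n} :
    Approximable S h ↔ ∀ R : ℝ, 0 < R → ∀ ε : ℝ, 0 < ε →
      ∃ g ∈ S, ∀ p ∈ Metric.closedBall (0 : E n) R, dist (g p) (h p) < ε := by
  constructor
  · intro H R _ ε hε
    obtain ⟨g, hg, δ, hδ, hp⟩ := H _ Metric.isBounded_closedBall ε hε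
    exact ⟨g, hg, fun p hpB => (hp p hpB).trans_lt hδ⟩
  · intro H B hB ε hε
    obtain ⟨R, hR⟩ := hB.subset_closedBall (0 : E n)
    obtain ⟨g, hg, hp⟩ := H (max R 1) (by positivity) (ε / 2) (by positivity)
    refine ⟨g, hg, ε / 2, by linarith, fun p hpB => (hp p ?_).le⟩
    exact Metric.closedBall_subset_closedBall (le_max_left _ _) (hR hpB)

theorem Approximable.of_mem {S : Set (E n ≃ₜ E n)} {h : E n ≃ₜ E n} (hh : h ∈ S) :
    Approximable S h := by
  intro B _ ε hε
  exact ⟨h, hh, 0, hε, fun p _ => by simp⟩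

/-- Transitivity: a limit of limits is a limit. -/
theorem Approximable.trans {S T : Set (E n ≃ₜ E n)} {h : E n ≃ₜ E n}
    (hh : Approximable T h) (hT : ∀ t ∈ T, Approximable S t) : Approximable S h := by
  rw [approximable_iff_ball] at hh ⊢
  intro R hR ε hε
  obtain ⟨t, ht, htp⟩ := hh R hR (ε / 2) (by positivity)
  have := hT t ht
  rw [approximable_iff_ball] at this
  obtain ⟨g, hg, hgp⟩ := this R hR (ε / 2) (by positivity)
  refine ⟨g, hg, fun p hp => ?_⟩
  calc dist (g p) (h p) ≤ dist (g p) (t p) + dist (t p) (h p) := dist_triangle _ _ _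
    _ < ε / 2 + ε / 2 := add_lt_add (hgp p hp) (htp p hp)
    _ = ε := by ring

/-- Approximable homeomorphisms can be composed. -/
theorem Approximable.mul {S : Set (E n ≃ₜ E n)} (hS : ∀ a ∈ S, ∀ b ∈ S, a * b ∈ S)
    {h k : E n ≃ₜ E n} (hh : Approximable S h) (hk : Approximable S k) :
    Approximable S (h * k) := by
  rw [approximable_iff_ball] at hh hk ⊢
  intro R hR ε hε
  -- the image of the ball under `k`
  have hcomp : IsCompact (k '' Metric.closedBall (0 : E n) R) :=
    (isCompact_closedBall _ _).image k.continuous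
  obtain ⟨R', hR'⟩ := hcomp.isBounded.subset_closedBall (0 : E n)
  set M : ℝ := max R' 0 + 1 with hM
  have hM0 : 0 < M := by positivity
  have hunif : UniformContinuousOn h (Metric.closedBall (0 : E n) M) :=
    (isCompact_closedBall _ _).uniformContinuousOn_of_continuous h.continuous.continuousOn
  rw [Metric.uniformContinuousOn_iff] at hunif
  obtain ⟨δ, hδ, hδ'⟩ := hunif (ε / 2) (by positivity)
  obtain ⟨a, ha, hap⟩ := hh M hM0 (ε / 2) (by positivity)
  obtain ⟨b, hb, hbp⟩ := hk R hR (min δ 1) (by positivity)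
  refine ⟨a * b, hS a ha b hb, fun p hp => ?_⟩
  have h1 : k p ∈ Metric.closedBall (0 : E n) R' := hR' ⟨p, hp, rfl⟩
  have hkp : k p ∈ Metric.closedBall (0 : E n) M := by
    refine Metric.closedBall_subset_closedBall ?_ h1
    have := le_max_left R' 0
    linarith
  have hbp' := hbp p hp
  have hbM : b p ∈ Metric.closedBall (0 : E n) M := by
    rw [Metric.mem_closedBall]
    have h2 : dist (b p) (k p) < 1 := hbp'.trans_le (min_le_right _ _)
    have h3 : dist (k p) 0 ≤ R' := h1
    have h4 := le_max_left R' 0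
    calc dist (b p) 0 ≤ dist (b p) (k p) + dist (k p) 0 := dist_triangle _ _ _
      _ ≤ M := by linarith
  have e1 : dist (a (b p)) (h (b p)) < ε / 2 := hap _ hbM
  have e2 : dist (h (b p)) (h (k p)) < ε / 2 :=
    hδ' _ hbM _ hkp (hbp'.trans_le (min_le_left _ _))
  calc dist ((a * b) p) ((h * k) p) = dist (a (b p)) (h (k p)) := rfl
    _ ≤ dist (a (b p)) (h (b p)) + dist (h (b p)) (h (k p)) := dist_triangle _ _ _
    _ < ε / 2 + ε / 2 := add_lt_add e1 e2
    _ = ε := by ring

theorem coord_norm_le (x : E n) (i : Fin n) : |x i| ≤ ‖x‖ := by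
  rw [EuclideanSpace.norm_eq, ← Real.sqrt_sq_eq_abs]
  apply Real.sqrt_le_sqrt
  have h := Finset.single_le_sum (f := fun k => ‖x k‖ ^ 2)
    (fun k _ => by positivity) (Finset.mem_univ i)
  simpa using h

/-- The inverse of a homeomorphism changing one coordinate changes one coordinate. -/
theorem TypeA_inv {h : E n ≃ₜ E n} (hh : h ∈ TypeA n) : h⁻¹ ∈ TypeA n := by
  obtain ⟨i, hi⟩ := hh
  refine ⟨i, fun x j hj => ?_⟩
  have := hi (h.symm x) j hj
  rw [Homeomorph.apply_symm_apply] at this
  exact this.symm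

theorem mem_GA {h : E n ≃ₜ E n} (hh : h ∈ TypeA n) : h ∈ GA n := Subgroup.subset_closure hh

/-- Induction on `G(S_A^n)` using only products. -/
theorem GA_induction {P : (E n ≃ₜ E n) → Prop} (hone : P 1) (hA : ∀ h ∈ TypeA n, P h)
    (hmul : ∀ a b, P a → P b → P (a * b)) {g : E n ≃ₜ E n} (hg : g ∈ GA n) : P g := by
  have h1 : (GA n).toSubmonoid = Submonoid.closure (TypeA n) := by
    unfold GA
    rw [Subgroup.closure_toSubmonoid]
    congr 1
    ext x
    constructor
    · rintro (hx | hx)
      · exact hx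
      · have := TypeA_inv (Set.mem_inv.1 hx)
        rwa [inv_inv] at this
    · intro hx; exact Or.inl hx
  have hg' : g ∈ (GA n).toSubmonoid := hg
  rw [h1] at hg'
  clear hg
  induction hg' using Submonoid.closure_induction with
  | mem x hx => exact hA x hx
  | one => exact hone
  | mul x y _ _ hx hy => exact hmul x y hx hy

end Pool.Agent.J6H45.CoordRestr
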