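import Mathlib

/-!
# Homeomorphisms of `E^n` changing one coordinate

`E n` is Euclidean `n`-space. `TypeA n` is the set of the homeomorphisms of `E^n` which change only
one coordinate, `TypeB` the set of the homeomorphisms of `E^3` of the form
`(x, y, z) ↦ (f (y, z), g (x, z), h (x, y))`. `Approximable S h`: the homeomorphism `h` is a limit of
members of `S`, uniformly on bounded sets.
-/

namespace Pool.Agent.J6H45.CoordRestr

/-- Euclidean `n`-space `E^n`. -/
abbrev E (n : ℕ) := EuclideanSpace ℝ (Fin n)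

/-- The homeomorphisms of `E^n` which change only one coordinate. -/
def TypeA (n : ℕ) : Set (E n ≃ₜ E n) :=
  {h | ∃ i : Fin n, ∀ (x : E n) (j : Fin n), j ≠ i → h x j = x j}

/-- The homeomorphisms of `E^3` of the form `(x, y, z) ↦ (f (y, z), g (x, z), h (x, y))` with
`f`, `g`, `h` continuous. -/
def TypeB : Set (E 3 ≃ₜ E 3) :=
  {F | ∃ f g h : ℝ × ℝ → ℝ, Continuous f ∧ Continuous g ∧ Continuous h ∧
    ∀ p : E 3, F p 0 = f (p 1, p 2) ∧ F p 1 = g (p 0, p 2) ∧ F p 2 = h (p 0, p 1)}

/-- `G(S_A^n)`: the group generated by the homeomorphisms of `E^n` changing only one coordinate. -/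
def GA (n : ℕ) : Subgroup (E n ≃ₜ E n) := Subgroup.closure (TypeA n)

/-- `G(S_B)`: the group generated by the homeomorphisms of type B. -/
def GB : Subgroup (E 3 ≃ₜ E 3) := Subgroup.closure TypeB

/-- The homeomorphism `h` is approximable by the set `S` of homeomorphisms of `E^n`: for every
bounded set `B` and every `ε > 0` some `g ∈ S` satisfies `sup_{p ∈ B} |g(p) - h(p)| < ε`
(expressed by: the distances are at most some `δ < ε`). -/
def Approximable {n : ℕ} (S : Set (E n ≃ₜ E n)) (h : E n ≃ₜ E n) : Prop :=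
  ∀ B : Set (E n), Bornology.IsBounded B → ∀ ε : ℝ, 0 < ε →
    ∃ g ∈ S, ∃ δ < ε, ∀ p ∈ B, dist (g p) (h p) ≤ δ

/-- The `C^r` diffeomorphisms of `E^n`: `h` and its inverse are `C^r`. -/
def Diffeos (n : ℕ) (r : ℕ∞) : Set (E n ≃ₜ E n) :=
  {h | ContDiff ℝ r h ∧ ContDiff ℝ r h.symm}

end Pool.Agent.J6H45.CoordRestr
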