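import Pool.Agent.J6H45.CoordRestr.Linear

/-!
# On bounded sets, `C^1` diffeomorphisms are compositions of maps changing one coordinate
-/

open scoped NNReal Topology
open Set

namespace Pool.Agent.J6H45.CoordRestr

variable {n : ℕ}

/-- the Alexander isotopy `h_t (x) = h (t x) / t` -/
noncomputable def alex (h : E n → E n) (t : ℝ) (x : E n) : E n :=
  if t = 0 then fderiv ℝ h 0 x else t⁻¹ • h (t • x)

theorem alex_one (h : E n → E n) (x : E n) : alex h 1 x = h x := by
  simp [alex]

theorem alex_hasFDerivAt {h : E n → E n} (hh : ContDiff ℝ 1 h) (t : ℝ) (x : E n) :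
    HasFDerivAt (alex h t) (fderiv ℝ h (t • x)) x := by
  by_cases ht : t = 0
  · subst ht
    have : alex h 0 = fun x => fderiv ℝ h 0 x := by
      funext y; simp [alex]
    rw [this, zero_smul]
    exact (fderiv ℝ h 0).hasFDerivAt
  · have : alex h t = fun x => t⁻¹ • h (t • x) := by
      funext y; simp [alex, ht]
    rw [this]
    have h1 : HasFDerivAt h (fderiv ℝ h (t • x)) (t • x) :=
      (hh.differentiable (by norm_num)).differentiableAt.hasFDerivAt
    have h2 : HasFDerivAt (fun x : E n => t • x) (t • ContinuousLinearMap.id ℝ (E n)) x :=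
      (hasFDerivAt_id x).const_smul t
    have h3 := (h1.comp x h2).const_smul t⁻¹
    refine HasFDerivAt.congr_fderiv h3 ?_
    ext y
    simp [ht]

/-- the derivatives of the isotopy are uniformly close for close times -/
theorem alex_close {h : E n → E n} (hh : ContDiff ℝ 1 h) (R : ℝ) {ε : ℝ} (hε : 0 < ε) :
    ∃ δ > 0, ∀ s ∈ Icc (0 : ℝ) 1, ∀ t ∈ Icc (0 : ℝ) 1, |t - s| < δ →
      ∀ x ∈ Metric.closedBall (0 : E n) R, ∀ y ∈ Metric.closedBall (0 : E n) R,
        ‖(alex h t x - alex h s x) - (alex h t y - alex h s y)‖ ≤ ε * ‖x - y‖ := by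
  have hc : Continuous (fderiv ℝ h) := hh.continuous_fderiv (by norm_num)
  have hu : UniformContinuousOn (fderiv ℝ h) (Metric.closedBall (0 : E n) R) :=
    (isCompact_closedBall _ _).uniformContinuousOn_of_continuous hc.continuousOn
  rw [Metric.uniformContinuousOn_iff] at hu
  obtain ⟨δ, hδ, hδ'⟩ := hu ε hε
  have hR1 : 0 < |R| + 1 := by positivity
  refine ⟨δ / (|R| + 1), by positivity, fun s hs t ht hst x hx y hy => ?_⟩
  have hbound : ∀ z ∈ Metric.closedBall (0 : E n) R,
      ‖fderiv ℝ h (t • z) - fderiv ℝ h (s • z)‖ ≤ ε := by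
    intro z hz
    have hz' : ‖z‖ ≤ R := by simpa using hz
    have hmem : ∀ r ∈ Icc (0 : ℝ) 1, r • z ∈ Metric.closedBall (0 : E n) R := by
      intro r hr
      rw [mem_closedBall_zero_iff, norm_smul, Real.norm_eq_abs, abs_of_nonneg hr.1]
      calc r * ‖z‖ ≤ 1 * ‖z‖ := by gcongr; exact hr.2
        _ ≤ R := by rw [one_mul]; exact hz'
    have hd : dist (t • z) (s • z) < δ := by
      rw [dist_eq_norm, ← sub_smul, norm_smul, Real.norm_eq_abs]
      have h1 : ‖z‖ ≤ |R| := hz'.trans (le_abs_self R)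
      calc |t - s| * ‖z‖ ≤ |t - s| * (|R| + 1) := by gcongr; linarith
        _ < δ / (|R| + 1) * (|R| + 1) := by gcongr
        _ = δ := by field_simp
    have := hδ' _ (hmem t ht) _ (hmem s hs) hd
    rw [dist_eq_norm] at this
    exact this.le
  have := Convex.norm_image_sub_le_of_norm_hasFDerivWithin_le (𝕜 := ℝ)
    (f := fun z => alex h t z - alex h s z)
    (f' := fun z => fderiv ℝ h (t • z) - fderiv ℝ h (s • z))
    (s := Metric.closedBall (0 : E n) R) (C := ε) (x := y) (y := x)
    (fun z _ => ((alex_hasFDerivAt hh t z).sub (alex_hasFDerivAt hh s z)).hasFDerivWithinAt)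
    hbound (convex_closedBall _ _) hy hx
  exact this

/-- uniform lower bounds along the isotopy -/
theorem alex_lower {h : E n ≃ₜ E n} (hh : ContDiff ℝ 1 h) (hh' : ContDiff ℝ 1 h.symm)
    (h0 : h 0 = 0) (R : ℝ) :
    ∃ C : ℝ, 0 < C ∧ ∀ s ∈ Icc (0 : ℝ) 1, ∀ x ∈ Metric.closedBall (0 : E n) R,
      ∀ y ∈ Metric.closedBall (0 : E n) R, ‖x - y‖ ≤ C * ‖alex h s x - alex h s y‖ := by
  have hcomp : IsCompact (h '' Metric.closedBall (0 : E n) R) :=
    (isCompact_closedBall _ _).image h.continuous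
  obtain ⟨R', hR'⟩ := hcomp.isBounded.subset_closedBall (0 : E n)
  set M : ℝ := max R' 0 with hM
  have hM0 : 0 ≤ M := le_max_right _ _
  have hsub : h '' Metric.closedBall (0 : E n) R ⊆ Metric.closedBall 0 M :=
    hR'.trans (Metric.closedBall_subset_closedBall (le_max_left _ _))
  have hc : Continuous (fderiv ℝ h.symm) := hh'.continuous_fderiv (by norm_num)
  obtain ⟨C, hC⟩ := (isCompact_closedBall (0 : E n) M).exists_bound_of_continuousOn
    (f := fderiv ℝ h.symm) hc.continuousOn
  have hC0 : 0 ≤ C := (norm_nonneg _).trans (hC 0 (by simpa using hM0))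
  refine ⟨C + 1, by positivity, fun s hs x hx y hy => ?_⟩
  have hlip : ∀ a ∈ Metric.closedBall (0 : E n) R, ∀ b ∈ Metric.closedBall (0 : E n) R,
      ‖a - b‖ ≤ (C + 1) * ‖h a - h b‖ := by
    intro a ha b hb
    have := Convex.norm_image_sub_le_of_norm_hasFDerivWithin_le (𝕜 := ℝ)
      (f := h.symm) (f' := fderiv ℝ h.symm)
      (s := Metric.closedBall (0 : E n) M) (C := C) (x := h b) (y := h a)
      (fun z _ => ((hh'.differentiable (by norm_num)).differentiableAt.hasFDerivAt).hasFDerivWithinAt)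
      (fun z hz => hC z hz) (convex_closedBall _ _) (hsub ⟨b, hb, rfl⟩) (hsub ⟨a, ha, rfl⟩)
    rw [Homeomorph.symm_apply_apply, Homeomorph.symm_apply_apply] at this
    refine this.trans ?_
    gcongr
    linarith
  by_cases hs0 : s = 0
  · subst hs0
    have hA : HasFDerivAt h (fderiv ℝ h 0) 0 :=
      (hh.differentiable (by norm_num)).differentiableAt.hasFDerivAt
    have hB : HasFDerivAt h.symm (fderiv ℝ h.symm 0) (h 0) := by
      rw [h0]; exact (hh'.differentiable (by norm_num)).differentiableAt.hasFDerivAt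
    have hBA := hB.comp (0 : E n) hA
    have hid : HasFDerivAt (h.symm ∘ h) (ContinuousLinearMap.id ℝ (E n)) 0 := by
      have : (h.symm ∘ h) = id := by funext z; simp
      rw [this]; exact hasFDerivAt_id 0
    have e := hBA.unique hid
    have e1 : x - y = fderiv ℝ h.symm 0 (fderiv ℝ h 0 (x - y)) := by
      have := congrArg (fun L : E n →L[ℝ] E n => L (x - y)) e
      simpa using this.symm
    have e2 : alex h 0 x - alex h 0 y = fderiv ℝ h 0 (x - y) := by
      simp [alex]
    rw [e2]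
    calc ‖x - y‖ = ‖fderiv ℝ h.symm 0 (fderiv ℝ h 0 (x - y))‖ := by rw [← e1]
      _ ≤ ‖fderiv ℝ h.symm 0‖ * ‖fderiv ℝ h 0 (x - y)‖ := ContinuousLinearMap.le_opNorm _ _
      _ ≤ (C + 1) * ‖fderiv ℝ h 0 (x - y)‖ := by
        gcongr
        have := hC 0 (by simpa using hM0)
        linarith
  · have hspos : 0 < s := lt_of_le_of_ne hs.1 (Ne.symm hs0)
    have hmem : ∀ z ∈ Metric.closedBall (0 : E n) R, s • z ∈ Metric.closedBall (0 : E n) R := by
      intro z hz
      have hz' : ‖z‖ ≤ R := by simpa using hz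
      rw [mem_closedBall_zero_iff, norm_smul, Real.norm_eq_abs, abs_of_nonneg hs.1]
      calc s * ‖z‖ ≤ 1 * ‖z‖ := by gcongr; exact hs.2
        _ ≤ R := by rw [one_mul]; exact hz'
    have := hlip _ (hmem x hx) _ (hmem y hy)
    rw [← smul_sub, norm_smul, Real.norm_eq_abs, abs_of_pos hspos] at this
    have e : alex h s x - alex h s y = s⁻¹ • (h (s • x) - h (s • y)) := by
      simp [alex, hs0, smul_sub]
    rw [e, norm_smul, norm_inv, Real.norm_eq_abs, abs_of_pos hspos]
    have h3 : ‖x - y‖ ≤ s⁻¹ * ((C + 1) * ‖h (s • x) - h (s • y)‖) := by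
      rw [inv_mul_eq_div, le_div_iff₀ hspos, mul_comm]
      exact this
    calc ‖x - y‖ ≤ s⁻¹ * ((C + 1) * ‖h (s • x) - h (s • y)‖) := h3
      _ = (C + 1) * (s⁻¹ * ‖h (s • x) - h (s • y)‖) := by ring

/-- one small step along the isotopy is realised by a member of `MA n` -/
theorem alex_step {h : E n → E n} {R C ε : ℝ} (hC : 0 < C) (hε : 0 < ε)
    (hsmall : (lipschitzExtensionConstant (E n) : ℝ) * (C * ε) < 1 / 2) {s t : ℝ}
    (hclose : ∀ x ∈ Metric.closedBall (0 : E n) R, ∀ y ∈ Metric.closedBall (0 : E n) R,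
        ‖(alex h t x - alex h s x) - (alex h t y - alex h s y)‖ ≤ ε * ‖x - y‖)
    (hlow : ∀ x ∈ Metric.closedBall (0 : E n) R,
      ∀ y ∈ Metric.closedBall (0 : E n) R, ‖x - y‖ ≤ C * ‖alex h s x - alex h s y‖) :
    ∃ k ∈ MA n, ∀ x ∈ Metric.closedBall (0 : E n) R, k (alex h s x) = alex h t x := by
  classical
  set B := Metric.closedBall (0 : E n) R with hB
  have hinj : InjOn (alex h s) B := by
    intro x hx y hy hxy
    have := hlow x hx y hy
    rw [hxy, sub_self, norm_zero, mul_zero] at this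
    exact sub_eq_zero.1 (norm_le_zero_iff.1 this)
  let ψ : E n → E n := fun y => alex h t (Function.invFunOn (alex h s) B y) - y
  have hψ : ∀ x ∈ B, ψ (alex h s x) = alex h t x - alex h s x := by
    intro x hx
    have : Function.invFunOn (alex h s) B (alex h s x) = x := hinj.leftInvOn_invFunOn hx
    simp only [ψ, this]
  have hlipψ : LipschitzOnWith (Real.toNNReal (C * ε)) ψ (alex h s '' B) := by
    refine LipschitzOnWith.of_dist_le_mul ?_
    rintro _ ⟨x, hx, rfl⟩ _ ⟨y, hy, rfl⟩
    rw [hψ x hx, hψ y hy, Real.coe_toNNReal _ (by positivity), dist_eq_norm, dist_eq_norm]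
    calc _ ≤ ε * ‖x - y‖ := hclose x hx y hy
      _ ≤ ε * (C * ‖alex h s x - alex h s y‖) := by gcongr; exact hlow x hx y hy
      _ = _ := by ring
  obtain ⟨u, hu, hueq⟩ := hlipψ.extend_finite_dimension
  have hc : lipschitzExtensionConstant (E n) * Real.toNNReal (C * ε) < 1 / 2 := by
    rw [← NNReal.coe_lt_coe]
    push_cast
    rw [Real.coe_toNNReal _ (by positivity)]
    exact hsmall
  obtain ⟨k, hk⟩ := exists_homeo_of_lip (hc.trans (by norm_num)) hu
  refine ⟨k, small_mem_MA hc hu hk, fun x hx => ?_⟩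
  rw [hk, ← hueq ⟨x, hx, rfl⟩, hψ x hx]
  abel

/-- **On bounded sets, every `C^1` diffeomorphism of `E^n` agrees with a composition of small
one-coordinate maps and reflections.** -/
theorem diffeo_agree {h : E n ≃ₜ E n} (hh : ContDiff ℝ 1 h) (hh' : ContDiff ℝ 1 h.symm) (R : ℝ) :
    ∃ g ∈ MA n, ∀ x ∈ Metric.closedBall (0 : E n) R, g x = h x := by
  -- reduction to `h 0 = 0`
  wlog h0 : h 0 = 0 generalizing h
  · let τ : E n ≃ₜ E n := Homeomorph.addRight (-(h 0))
    have hτ : ∀ x, τ x = x + -(h 0) := fun x => rfl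
    have hτ' : ∀ x, τ.symm x = x + h 0 := fun x => by
      rw [Homeomorph.symm_apply_eq, hτ]; abel
    have e1 : ∀ x, (τ * h) x = h x + -(h 0) := fun x => rfl
    have e2 : ∀ x, (τ * h).symm x = h.symm (x + h 0) := by
      intro x
      change h.symm (τ.symm x) = _
      rw [hτ']
    obtain ⟨g, hg, hgx⟩ := this (h := τ * h)
      (by
        have : ((τ * h : E n ≃ₜ E n) : E n → E n) = fun x => h x + -(h 0) := funext e1
        rw [this]; exact hh.add contDiff_const)
      (by
        have : ((τ * h : E n ≃ₜ E n).symm : E n → E n) = fun x => h.symm (x + h 0) := funext e2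
        rw [this]; exact hh'.comp (contDiff_id.add contDiff_const))
      (by rw [e1]; simp)
    refine ⟨τ⁻¹ * g, mul_mem (translation_mem_MA (v := h 0) fun x => hτ' x) hg, fun x hx => ?_⟩
    rw [Homeomorph.mul_apply, hgx x hx, Homeomorph.inv_apply, Homeomorph.mul_apply,
      Homeomorph.symm_apply_apply]
  obtain ⟨C, hC, hlow⟩ := alex_lower hh hh' h0 R
  have hK : 0 < lipschitzExtensionConstant (E n) := lipschitzExtensionConstant_pos _
  have hK' : (0 : ℝ) < lipschitzExtensionConstant (E n) := by exact_mod_cast hK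
  set ε : ℝ := 1 / (4 * (lipschitzExtensionConstant (E n) * C)) with hε
  have hε0 : 0 < ε := by positivity
  have hsmall : (lipschitzExtensionConstant (E n) : ℝ) * (C * ε) < 1 / 2 := by
    have : (lipschitzExtensionConstant (E n) : ℝ) * (C * ε) = 1 / 4 := by
      rw [hε]; field_simp
    rw [this]; norm_num
  obtain ⟨δ, hδ, hclose⟩ := alex_close hh R hε0
  obtain ⟨N, hN⟩ := exists_nat_gt (1 / δ)
  have hN0 : (0 : ℝ) < N := lt_trans (by positivity) hN
  have hstep : ∀ j : ℕ, j ≤ N → ∃ g ∈ MA n, ∀ x ∈ Metric.closedBall (0 : E n) R,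
      g (alex h 0 x) = alex h (j / N) x := by
    intro j
    induction j with
    | zero => intro _; exact ⟨1, one_mem _, fun x _ => by simp⟩
    | succ j ih =>
      intro hj
      obtain ⟨g, hg, hgx⟩ := ih (by omega)
      have hs : (j / N : ℝ) ∈ Icc (0 : ℝ) 1 := by
        refine ⟨by positivity, ?_⟩
        rw [div_le_one hN0]
        exact_mod_cast (by omega : j ≤ N)
      have ht : ((j + 1 : ℕ) / N : ℝ) ∈ Icc (0 : ℝ) 1 := by
        refine ⟨by positivity, ?_⟩
        rw [div_le_one hN0]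
        exact_mod_cast hj
      have hd : |((j + 1 : ℕ) / N : ℝ) - j / N| < δ := by
        have : ((j + 1 : ℕ) / N : ℝ) - j / N = 1 / N := by push_cast; ring
        rw [this, abs_of_pos (by positivity), div_lt_iff₀ hN0]
        rwa [div_lt_iff₀ hδ, mul_comm] at hN
      obtain ⟨k, hk, hkx⟩ := alex_step hC hε0 hsmall (hclose _ hs _ ht hd) (hlow _ hs)
      refine ⟨k * g, mul_mem hk hg, fun x hx => ?_⟩
      rw [Homeomorph.mul_apply, hgx x hx, hkx x hx]
  obtain ⟨g, hg, hgx⟩ := hstep N le_rfl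
  -- the linear part
  have hA : HasFDerivAt h (fderiv ℝ h 0) 0 :=
    (hh.differentiable (by norm_num)).differentiableAt.hasFDerivAt
  have hB : HasFDerivAt h.symm (fderiv ℝ h.symm 0) 0 :=
    (hh'.differentiable (by norm_num)).differentiableAt.hasFDerivAt
  have hsymm0 : h.symm 0 = 0 := by
    rw [Homeomorph.symm_apply_eq]; exact h0.symm
  have hBA : (fderiv ℝ h.symm 0).comp (fderiv ℝ h 0) = ContinuousLinearMap.id ℝ (E n) := by
    have hB' : HasFDerivAt h.symm (fderiv ℝ h.symm 0) (h 0) := by rw [h0]; exact hB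
    have h1 := hB'.comp (0 : E n) hA
    have h2 : HasFDerivAt (h.symm ∘ h) (ContinuousLinearMap.id ℝ (E n)) 0 := by
      have : (h.symm ∘ h) = id := by funext z; simp
      rw [this]; exact hasFDerivAt_id 0
    exact h1.unique h2
  have hAB : (fderiv ℝ h 0).comp (fderiv ℝ h.symm 0) = ContinuousLinearMap.id ℝ (E n) := by
    have hA' : HasFDerivAt h (fderiv ℝ h 0) (h.symm 0) := by rw [hsymm0]; exact hA
    have h1 := hA'.comp (0 : E n) hB
    have h2 : HasFDerivAt (h ∘ h.symm) (ContinuousLinearMap.id ℝ (E n)) 0 := by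
      have : (h ∘ h.symm) = id := by funext z; simp
      rw [this]; exact hasFDerivAt_id 0
    exact h1.unique h2
  let L : E n ≃L[ℝ] E n := ContinuousLinearEquiv.equivOfInverse (fderiv ℝ h 0)
    (fderiv ℝ h.symm 0) (fun x => by
      have := congrArg (fun L : E n →L[ℝ] E n => L x) hBA
      simpa using this) (fun x => by
      have := congrArg (fun L : E n →L[ℝ] E n => L x) hAB
      simpa using this)
  refine ⟨g * L.toHomeomorph, mul_mem hg (linear_mem_MA L fun x => rfl), fun x hx => ?_⟩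
  have e1 : L.toHomeomorph x = alex h 0 x := by
    simp [alex, L]
  rw [Homeomorph.mul_apply, e1, hgx x hx, div_self hN0.ne', alex_one]

/-- reflections are of type A -/
theorem Reflections_subset_TypeA : Reflections n ⊆ TypeA n := by
  rintro h ⟨i, hi⟩
  exact ⟨i, fun x j hj => by rw [hi, if_neg hj]⟩

theorem MA_le_GA : MA n ≤ (GA n).toSubmonoid := by
  refine Submonoid.closure_le.2 ?_
  rintro h (hh | hh)
  · exact mem_GA (SmallA_subset_TypeA hh)
  · exact mem_GA (Reflections_subset_TypeA hh)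

/-- Every `C^1` diffeomorphism of `E^n` agrees, on each bounded set, with a member of `G(S_A^n)`. -/
theorem diffeo_agree_GA {h : E n ≃ₜ E n} (hh : h ∈ Diffeos n 1) {B : Set (E n)}
    (hB : Bornology.IsBounded B) : ∃ g ∈ GA n, ∀ x ∈ B, g x = h x := by
  obtain ⟨R, hR⟩ := hB.subset_closedBall (0 : E n)
  obtain ⟨g, hg, hgx⟩ := diffeo_agree hh.1 hh.2 R
  exact ⟨g, MA_le_GA hg, fun x hx => hgx x (hR hx)⟩

end Pool.Agent.J6H45.CoordRestr
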