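import Pool.Agent.J6H45.CoordRestr.Factor

/-!
# Linear maps factor into maps changing one coordinate
-/

open scoped NNReal Topology
open Set

namespace Pool.Agent.J6H45.CoordRestr

variable {n : ℕ}

/-- the reflections `x_i ↦ - x_i` -/
def Reflections (n : ℕ) : Set (E n ≃ₜ E n) :=
  {h | ∃ i : Fin n, ∀ (x : E n) (j : Fin n), h x j = if j = i then - x j else x j}

/-- the monoid generated by the small one-coordinate maps and the coordinate reflections -/
def MA (n : ℕ) : Submonoid (E n ≃ₜ E n) := Submonoid.closure (SmallA n ∪ Reflections n)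

theorem SmallA_subset_MA {h : E n ≃ₜ E n} (hh : h ∈ SmallA n) : h ∈ MA n :=
  Submonoid.subset_closure (Or.inl hh)

theorem small_mem_MA {u : E n → E n} {c : ℝ≥0} (hc : c < 1 / 2) (hu : LipschitzWith c u)
    {h : E n ≃ₜ E n} (hh : ∀ x, h x = x + u x) : h ∈ MA n :=
  Submonoid.closure_mono (Set.subset_union_left) (small_mem_closure hc hu hh)

/-- translations -/
theorem translation_mem_MA {v : E n} {h : E n ≃ₜ E n} (hh : ∀ x, h x = x + v) : h ∈ MA n :=
  small_mem_MA (u := fun _ => v) (c := 0) (by norm_num) (LipschitzWith.const _) hh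

/-- `P A`: the linear map with matrix `A` is in `MA n` -/
def LinMem (A : Matrix (Fin n) (Fin n) ℝ) : Prop :=
  ∃ h ∈ MA n, ∀ x : E n, h x = WithLp.toLp 2 (A.mulVec (WithLp.ofLp x))

theorem LinMem.mul {A B : Matrix (Fin n) (Fin n) ℝ} (hA : LinMem A) (hB : LinMem B) :
    LinMem (A * B) := by
  obtain ⟨h, hh, hA⟩ := hA
  obtain ⟨k, hk, hB⟩ := hB
  refine ⟨h * k, mul_mem hh hk, fun x => ?_⟩
  rw [Homeomorph.mul_apply, hA, hB]
  simp [Matrix.mulVec_mulVec]

theorem LinMem.one : LinMem (1 : Matrix (Fin n) (Fin n) ℝ) :=
  ⟨1, one_mem _, fun x => by simp⟩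

theorem LinMem.pow {A : Matrix (Fin n) (Fin n) ℝ} (hA : LinMem A) (k : ℕ) : LinMem (A ^ k) := by
  induction k with
  | zero => simpa using LinMem.one
  | succ k ih => rw [pow_succ]; exact ih.mul hA

/-- A one-coordinate linear perturbation of the identity with a small row. -/
theorem LinMem.of_row (i j : Fin n) (c : ℝ) (hc : |c| < 1) (A : Matrix (Fin n) (Fin n) ℝ)
    (hA : ∀ x : Fin n → ℝ, A.mulVec x = x + Pi.single i (c * x j)) : LinMem A := by
  have hlip : LipschitzWith (Real.toNNReal |c|) (fun x : E n => c * x j) := by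
    refine LipschitzWith.of_dist_le_mul fun x y => ?_
    rw [Real.coe_toNNReal _ (abs_nonneg c)]
    have h1 := (coord_lip j).dist_le_mul x y
    rw [NNReal.coe_one, one_mul] at h1
    rw [Real.dist_eq, ← mul_sub, abs_mul, ← Real.dist_eq]
    gcongr
  have hc1 : Real.toNNReal |c| < 1 := by
    rw [← NNReal.coe_lt_coe, Real.coe_toNNReal _ (abs_nonneg c)]
    simpa using hc
  have hu : LipschitzWith (Real.toNNReal |c|)
      (fun x : E n => (c * x j) • EuclideanSpace.single i (1 : ℝ)) := by
    refine LipschitzWith.of_dist_le_mul fun x y => ?_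
    rw [dist_eq_norm, ← sub_smul, norm_smul, PiLp.norm_single, norm_one, mul_one]
    have := hlip.dist_le_mul x y
    rwa [Real.dist_eq] at this
  obtain ⟨h, hh⟩ := exists_homeo_of_lip hc1 hu
  refine ⟨h, SmallA_subset_MA ⟨i, _, hc1, _, hlip, hh⟩, fun x => ?_⟩
  rw [hh, hA]
  ext k
  simp only [PiLp.add_apply, PiLp.smul_apply, PiLp.single_apply, smul_eq_mul,
    Pi.add_apply]
  by_cases hk : k = i
  · subst hk; simp
  · simp [hk]

theorem LinMem.transvection {i j : Fin n} (hij : i ≠ j) (c : ℝ) :
    LinMem (Matrix.transvection i j c) := by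
  obtain ⟨N, hN⟩ := exists_nat_gt |c|
  have hN0 : (0 : ℝ) < N := (abs_nonneg c).trans_lt hN
  have hNne : (N : ℝ) ≠ 0 := hN0.ne'
  have h1 : LinMem (Matrix.transvection i j (c / N)) := by
    refine LinMem.of_row i j (c / N) ?_ _ fun x => ?_
    · rw [abs_div, abs_of_pos hN0, div_lt_one hN0]; exact hN
    · ext k
      simp only [Matrix.transvection, Matrix.add_mulVec, Matrix.one_mulVec, Pi.add_apply]
      congr 1
      by_cases hk : k = i
      · subst hk
        simp [Matrix.mulVec, dotProduct, Matrix.single_apply]
      · simp [Matrix.mulVec, dotProduct, hk, Ne.symm hk]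
  have h2 : ∀ k : ℕ, Matrix.transvection i j (c / N) ^ k = Matrix.transvection i j (k * (c / N)) := by
    intro k
    induction k with
    | zero => simp [Matrix.transvection_zero]
    | succ k ih =>
      rw [pow_succ, ih, Matrix.transvection_mul_transvection_same _ _ hij]
      congr 1
      push_cast
      ring
  have h3 := h1.pow N
  rw [h2] at h3
  convert h3 using 2
  field_simp

theorem LinMem.scaling (i : Fin n) {a : ℝ} (ha : a ≠ 0) :
    LinMem (Matrix.diagonal (Function.update (fun _ => (1 : ℝ)) i a)) := by
  -- multiplication of diagonal matrices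
  have hmul : ∀ b c : ℝ, Matrix.diagonal (Function.update (fun _ : Fin n => (1 : ℝ)) i b)
      * Matrix.diagonal (Function.update (fun _ => (1 : ℝ)) i c)
      = Matrix.diagonal (Function.update (fun _ => (1 : ℝ)) i (b * c)) := by
    intro b c
    rw [Matrix.diagonal_mul_diagonal]
    congr 1
    ext k
    by_cases hk : k = i
    · subst hk; simp
    · simp [hk]
  have hsmall : ∀ b : ℝ, 0 < b → b < 2 →
      LinMem (Matrix.diagonal (Function.update (fun _ : Fin n => (1 : ℝ)) i b)) := by
    intro b hb0 hb2
    refine LinMem.of_row i i (b - 1) (by rw [abs_lt]; constructor <;> linarith) _ fun x => ?_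
    ext k
    rw [Matrix.mulVec_diagonal]
    by_cases hk : k = i
    · subst hk; simp; ring
    · simp [hk]
  have hpos : ∀ b : ℝ, 0 < b →
      LinMem (Matrix.diagonal (Function.update (fun _ : Fin n => (1 : ℝ)) i b)) := by
    intro b hb
    obtain ⟨N, hN⟩ := exists_nat_gt (max b 1)
    have hN1 : (1 : ℝ) < N := (le_max_right _ _).trans_lt hN
    have hN0 : N ≠ 0 := by rintro rfl; norm_num at hN1
    set r : ℝ := b ^ ((1 : ℝ) / N) with hr
    have hr0 : 0 < r := Real.rpow_pos_of_pos hb _
    have hrN : r ^ N = b := by
      rw [hr, ← Real.rpow_natCast, ← Real.rpow_mul hb.le, one_div,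
        inv_mul_cancel₀ (by exact_mod_cast hN0), Real.rpow_one]
    have hr2 : r < 2 := by
      by_contra hcon
      push Not at hcon
      have h1 : (2 : ℝ) ^ N ≤ r ^ N := pow_le_pow_left₀ (by norm_num) hcon N
      rw [hrN] at h1
      have h2 : (N : ℝ) < 2 ^ N := by exact_mod_cast Nat.lt_two_pow_self
      have h3 := (le_max_left b 1).trans_lt hN
      linarith
    have hp : ∀ k : ℕ, Matrix.diagonal (Function.update (fun _ : Fin n => (1 : ℝ)) i r) ^ k
        = Matrix.diagonal (Function.update (fun _ => (1 : ℝ)) i (r ^ k)) := by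
      intro k
      induction k with
      | zero => simp
      | succ k ih => rw [pow_succ, ih, hmul, pow_succ]
    have := (hsmall r hr0 hr2).pow N
    rw [hp, hrN] at this
    exact this
  rcases lt_or_gt_of_ne ha with h | h
  · -- a reflection
    have href : LinMem (Matrix.diagonal (Function.update (fun _ : Fin n => (1 : ℝ)) i (-1))) := by
      let f : E n → E n := fun x => WithLp.toLp 2 (fun j => if j = i then - x j else x j)
      have hf : Continuous f := by
        refine (PiLp.continuous_toLp 2 _).comp (continuous_pi fun j => ?_)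
        by_cases hj : j = i
        · simp only [hj, if_true]; fun_prop
        · simp only [hj, if_false]; fun_prop
      have hff : ∀ x, f (f x) = x := by
        intro x
        ext j
        by_cases hj : j = i
        · simp [f, hj]
        · simp [f, hj]
      refine ⟨{ toFun := f, invFun := f, left_inv := hff, right_inv := hff,
                continuous_toFun := hf, continuous_invFun := hf }, ?_, fun x => ?_⟩
      · exact Submonoid.subset_closure (Or.inr ⟨i, fun x j => rfl⟩)
      · change f x = _
        ext j
        change _ = (Matrix.diagonal (Function.update (fun _ : Fin n => (1 : ℝ)) i (-1))).mulVec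
          x.ofLp j
        rw [Matrix.mulVec_diagonal]
        by_cases hj : j = i
        · subst hj; simp [f]
        · simp [f, hj]
    have := href.mul (hpos (-a) (by linarith))
    rw [hmul] at this
    simpa using this
  · exact hpos a h

theorem LinMem.diagonal {D : Fin n → ℝ} (hD : ∀ i, D i ≠ 0) : LinMem (Matrix.diagonal D) := by
  have key : ∀ s : Finset (Fin n), LinMem (Matrix.diagonal (fun i => if i ∈ s then D i else 1)) := by
    intro s
    induction s using Finset.induction_on with
    | empty => simpa using LinMem.one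
    | insert i s hi ih =>
      have := (LinMem.scaling i (hD i)).mul ih
      rw [Matrix.diagonal_mul_diagonal] at this
      have e : (fun k : Fin n => if k ∈ insert i s then D k else 1)
          = fun k => Function.update (fun _ : Fin n => (1 : ℝ)) i (D i) k
            * (if k ∈ s then D k else 1) := by
        funext k
        by_cases hk : k = i
        · subst hk; simp [hi]
        · simp [hk]
      rw [e]
      exact this
  simpa using key Finset.univ

theorem LinMem.of_det {A : Matrix (Fin n) (Fin n) ℝ} (hA : A.det ≠ 0) : LinMem A := by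
  refine Matrix.diagonal_transvection_induction_of_det_ne_zero LinMem A hA ?_ ?_ ?_
  · intro D hD
    rw [Matrix.det_diagonal] at hD
    exact LinMem.diagonal fun i => (Finset.prod_ne_zero_iff.1 hD) i (Finset.mem_univ i)
  · intro t
    exact LinMem.transvection t.hij t.c
  · intro A B _ _ h1 h2
    exact h1.mul h2

/-- Every linear isomorphism is in `MA n`. -/
theorem linear_mem_MA (L : E n ≃L[ℝ] E n) {h : E n ≃ₜ E n} (hh : ∀ x, h x = L x) : h ∈ MA n := by
  let b := (EuclideanSpace.basisFun (Fin n) ℝ).toBasis
  let A : Matrix (Fin n) (Fin n) ℝ := LinearMap.toMatrix b b (L.toLinearEquiv : E n →ₗ[ℝ] E n)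
  have hdet : A.det ≠ 0 := by
    have : IsUnit (LinearMap.toMatrix b b (L.toLinearEquiv : E n →ₗ[ℝ] E n)).det :=
      LinearEquiv.isUnit_det L.toLinearEquiv b b
    exact this.ne_zero
  obtain ⟨k, hk, hkA⟩ := LinMem.of_det hdet
  have : h = k := by
    ext x i
    rw [hh, hkA]
    have h1 := LinearMap.toMatrix_mulVec_repr b b (L.toLinearEquiv : E n →ₗ[ℝ] E n) x
    have h2 := congrFun h1 i
    simp only [b, EuclideanSpace.basisFun_toBasis, PiLp.basisFun_repr] at h2
    exact h2.symm
  rw [this]
  exact hk

end Pool.Agent.J6H45.CoordRestr
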