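import Pool.Agent.J6H45.CoordRestr.Basic

/-!
# Homeomorphisms changing one coordinate are limits of `C^∞` diffeomorphisms
-/

open scoped NNReal Topology ContDiff Convolution
open Set MeasureTheory

namespace Pool.Agent.J6H45.CoordRestr

variable {n : ℕ}

/-- the `i`-th basis vector -/
noncomputable abbrev ee (i : Fin n) : E n := EuclideanSpace.single i (1 : ℝ)

/-- A homeomorphism changing only the coordinate `i` is strictly monotone in it, with the same
direction on all lines. -/
theorem typeA_mono {h : E n ≃ₜ E n} {i : Fin n} (hi : ∀ (x : E n) (j : Fin n), j ≠ i → h x j = x j) :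
    ∃ σ : ℝ, (σ = 1 ∨ σ = -1) ∧ ∀ x : E n, StrictMono fun s : ℝ => σ * h (x + s • ee i) i := by
  have hinj : ∀ x : E n, Function.Injective fun s : ℝ => h (x + s • ee i) i := by
    intro x s t hst
    have h1 : h (x + s • ee i) = h (x + t • ee i) := by
      ext j
      by_cases hj : j = i
      · subst hj; exact hst
      · rw [hi _ j hj, hi _ j hj]
        simp [hj]
    have h2 := h.injective h1
    have h3 := congrArg (fun z : E n => z i) h2
    simpa using h3
  have hcont : ∀ x : E n, Continuous fun s : ℝ => h (x + s • ee i) i := by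
    intro x
    fun_prop
  have hdir : ∀ x : E n, (StrictMono fun s : ℝ => h (x + s • ee i) i) ∨
      StrictAnti fun s : ℝ => h (x + s • ee i) i :=
    fun x => (hcont x).strictMono_of_inj (hinj x)
  -- the difference function
  let d : E n → ℝ := fun x => h (x + (1 : ℝ) • ee i) i - h (x + (0 : ℝ) • ee i) i
  have hd : Continuous d := by fun_prop
  have hd0 : ∀ x, d x ≠ 0 := by
    intro x hx
    have := hinj x (sub_eq_zero.1 hx)
    norm_num at this
  have hmono_iff : ∀ x, 0 < d x → StrictMono fun s : ℝ => h (x + s • ee i) i := by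
    intro x hx
    rcases hdir x with h1 | h1
    · exact h1
    · have : h (x + (1 : ℝ) • ee i) i < h (x + (0 : ℝ) • ee i) i := h1 (by norm_num : (0 : ℝ) < 1)
      simp only [d] at hx
      linarith
  have hanti_iff : ∀ x, d x < 0 → StrictAnti fun s : ℝ => h (x + s • ee i) i := by
    intro x hx
    rcases hdir x with h1 | h1
    · have : h (x + (0 : ℝ) • ee i) i < h (x + (1 : ℝ) • ee i) i := h1 (by norm_num : (0 : ℝ) < 1)
      simp only [d] at hx
      linarith
    · exact h1
  rcases lt_or_gt_of_ne (hd0 0) with h0 | h0
  · refine ⟨-1, Or.inr rfl, fun x => ?_⟩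
    have hx : d x < 0 := by
      by_contra hcon
      push Not at hcon
      obtain ⟨y, hy⟩ := mem_range_of_exists_le_of_exists_ge (c := 0) hd ⟨0, h0.le⟩ ⟨x, hcon⟩
      exact hd0 y hy
    have := hanti_iff x hx
    intro s t hst
    have := this hst
    simp only at this ⊢
    linarith
  · refine ⟨1, Or.inl rfl, fun x => ?_⟩
    have hx : 0 < d x := by
      by_contra hcon
      push Not at hcon
      obtain ⟨y, hy⟩ := mem_range_of_exists_le_of_exists_ge (c := 0) hd ⟨x, hcon⟩ ⟨0, h0.le⟩
      exact hd0 y hy
    have := hmono_iff x hx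
    intro s t hst
    have := this hst
    simp only at this ⊢
    linarith

/-- Smooth approximation of a function which is monotone in the `i`-th coordinate. -/
theorem smooth_mono_approx {F : E n → ℝ} (hF : Continuous F) (i : Fin n)
    (hmono : ∀ x : E n, Monotone fun s : ℝ => F (x + s • ee i)) (R : ℝ) {ε : ℝ} (hε : 0 < ε) :
    ∃ G : E n → ℝ, ContDiff ℝ ∞ G ∧ (∀ x : E n, Monotone fun s : ℝ => G (x + s • ee i)) ∧
      ∀ x ∈ Metric.closedBall (0 : E n) R, |G x - F x| ≤ ε := by
  have hu : UniformContinuousOn F (Metric.closedBall (0 : E n) (R + 1)) :=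
    (isCompact_closedBall _ _).uniformContinuousOn_of_continuous hF.continuousOn
  rw [Metric.uniformContinuousOn_iff] at hu
  obtain ⟨δ, hδ, hδ'⟩ := hu ε hε
  have hm : 0 < min δ 1 := lt_min hδ one_pos
  let φ : ContDiffBump (0 : E n) := ⟨min δ 1 / 2, min δ 1, by positivity, by linarith⟩
  refine ⟨φ.normed volume ⋆[ContinuousLinearMap.lsmul ℝ ℝ, volume] F, ?_, ?_, ?_⟩
  · exact φ.hasCompactSupport_normed.contDiff_convolution_left _ φ.contDiff_normed
      hF.locallyIntegrable
  · intro x s t hst
    simp only [convolution_def, ContinuousLinearMap.lsmul_apply, smul_eq_mul]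
    have hint : ∀ z : E n, Integrable fun y => φ.normed volume y * F (z - y) := by
      intro z
      apply Continuous.integrable_of_hasCompactSupport
      · exact φ.continuous_normed.mul (by fun_prop)
      · exact φ.hasCompactSupport_normed.mul_right
    refine integral_mono (hint _) (hint _) fun y => ?_
    have h1 : x + s • ee i - y = (x - y) + s • ee i := by abel
    have h2 : x + t • ee i - y = (x - y) + t • ee i := by abel
    simp only [h1, h2]
    exact mul_le_mul_of_nonneg_left (hmono (x - y) hst) (φ.nonneg_normed y)
  · intro x hx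
    have := φ.dist_normed_convolution_le (μ := volume) (x₀ := x) (g := F) (ε := ε)
      hF.aestronglyMeasurable (fun y hy => by
        have hy' : dist y x < min δ 1 := hy
        refine (hδ' y ?_ x ?_ (hy'.trans_le (min_le_left _ _))).le
        · have h1 : dist y x < 1 := hy'.trans_le (min_le_right _ _)
          have h2 : dist x 0 ≤ R := hx
          rw [Metric.mem_closedBall]
          linarith [dist_triangle y x 0]
        · exact Metric.closedBall_subset_closedBall (by linarith) hx)
    rwa [Real.dist_eq] at this

end Pool.Agent.J6H45.CoordRestr
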