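import Pool.Agent.J6H45.CoordRestr.TypeBBasic

/-!
# Small one-coordinate maps of `E^3` are limits of members of `G(S_B)`
-/

open scoped NNReal Topology
open Set

namespace Pool.Agent.J6H45.CoordRestr

/-! ### The flows used -/

theorem isFlow_translation : IsFlow fun q : ℝ × ℝ => q.1 + q.2 where
  cont := by fun_prop
  zero x := by simp
  add x s t := by simp; ring

theorem isFlow_scaling : IsFlow fun q : ℝ × ℝ => Real.exp q.2 * q.1 where
  cont := by fun_prop
  zero x := by simp
  add x s t := by simp [Real.exp_add]; ring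

/-- scaling of the half line above `b` -/
theorem isFlow_half (b : ℝ) :
    IsFlow fun q : ℝ × ℝ => min q.1 b + Real.exp q.2 * max (q.1 - b) 0 where
  cont := by fun_prop
  zero x := by
    rcases le_total x b with h | h
    · simp [h]
    · simp [h]
  add x s t := by
    rcases le_total x b with h | h
    · simp [h]
    · have h1 : max (x - b) 0 = x - b := max_eq_left (by linarith)
      have h2 : 0 ≤ Real.exp t * (x - b) := mul_nonneg (Real.exp_pos _).le (by linarith)
      simp only [min_eq_right h, h1]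
      have h3 : min (b + Real.exp t * (x - b)) b = b := min_eq_right (by linarith)
      have h4 : max (b + Real.exp t * (x - b) - b) 0 = Real.exp t * (x - b) := by
        rw [max_eq_left (by linarith)]; ring
      rw [h3, h4, Real.exp_add]
      ring

theorem half_mono (b t : ℝ) : Monotone fun x : ℝ => min x b + Real.exp t * max (x - b) 0 := by
  intro x y hxy
  have h1 : min x b ≤ min y b := min_le_min_right b hxy
  have h2 : max (x - b) 0 ≤ max (y - b) 0 := max_le_max_right 0 (by linarith)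
  have h3 := Real.exp_pos t
  simp only
  nlinarith

theorem half_le {b x : ℝ} (hx : x ≤ b) (t : ℝ) : min x b + Real.exp t * max (x - b) 0 = x := by
  rw [min_eq_left hx, max_eq_right (by linarith)]; ring

theorem half_ge {b x : ℝ} (hx : b ≤ x) (t : ℝ) :
    min x b + Real.exp t * max (x - b) 0 = b + Real.exp t * (x - b) := by
  rw [min_eq_right hx, max_eq_left (by linarith)]

/-! ### Lipschitz estimates -/

theorem lip_v3 (b : ℝ) : LipschitzWith 2 fun q : ℝ × ℝ => v3 b q.1 q.2 := by
  refine LipschitzWith.of_dist_le_mul fun p q => ?_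
  rw [EuclideanSpace.dist_eq, Fin.sum_univ_three]
  simp only [v3_zero, v3_one, v3_two, dist_self]
  rw [Real.sqrt_le_left (by positivity)]
  have h1 : dist p.1 q.1 ≤ dist p q := le_max_left _ _
  have h2 : dist p.2 q.2 ≤ dist p q := le_max_right _ _
  have h3 : 0 ≤ dist p.1 q.1 := dist_nonneg
  have h4 : 0 ≤ dist p.2 q.2 := dist_nonneg
  have h5 : ((2 : ℝ≥0) : ℝ) = 2 := by norm_num
  rw [h5]
  nlinarith

theorem dist_v3_first (x x' : ℝ) (q : ℝ × ℝ) :
    dist (v3 x q.1 q.2) (v3 x' q.1 q.2) = |x - x'| := by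
  rw [EuclideanSpace.dist_eq, Fin.sum_univ_three]
  simp [Real.dist_eq, Real.sqrt_sq_eq_abs]

/-- `log` of a Lipschitz function bounded below is Lipschitz -/
theorem lip_log {m : ℝ × ℝ → ℝ} {K : ℝ≥0} (hm : LipschitzWith K m) {a : ℝ} (ha : 0 < a)
    (hma : ∀ q, a ≤ m q) : ∃ K' : ℝ≥0, LipschitzWith K' fun q => Real.log (m q) := by
  have hone : ∀ p q, Real.log (m p) - Real.log (m q) ≤ K / a * dist p q := by
    intro p q
    have hp : 0 < m p := ha.trans_le (hma p)
    have hq : 0 < m q := ha.trans_le (hma q)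
    rw [← Real.log_div hp.ne' hq.ne']
    have h1 : Real.log (m p / m q) ≤ m p / m q - 1 := Real.log_le_sub_one_of_pos (by positivity)
    have h2 : m p / m q - 1 = (m p - m q) / m q := by field_simp
    have h3 : m p - m q ≤ K * dist p q := by
      have := hm.dist_le_mul p q
      rw [Real.dist_eq] at this
      exact (le_abs_self _).trans this
    calc Real.log (m p / m q) ≤ (m p - m q) / m q := by rw [← h2]; exact h1
      _ ≤ (K * dist p q) / m q := by gcongr
      _ ≤ (K * dist p q) / a := by gcongr; exact hma q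
      _ = K / a * dist p q := by ring
  refine ⟨Real.toNNReal (K / a), LipschitzWith.of_dist_le_mul fun p q => ?_⟩
  rw [Real.coe_toNNReal _ (by positivity), Real.dist_eq, abs_le]
  constructor
  · have := hone q p
    rw [dist_comm] at this
    linarith
  · exact hone p q

/-! ### The interpolation -/

section interp

variable {φ : E 3 → ℝ} {c : ℝ≥0}

/-- values at the grid points -/
def gu (φ : E 3 → ℝ) (b : ℕ → ℝ) (j : ℕ) (q : ℝ × ℝ) : ℝ := b j + φ (v3 (b j) q.1 q.2)

/-- slopes -/
noncomputable def gm (φ : E 3 → ℝ) (b : ℕ → ℝ) (η : ℝ) (j : ℕ) (q : ℝ × ℝ) : ℝ :=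
  (gu φ b (j + 1) q - gu φ b j q) / η

theorem gm_bounds (hφ : LipschitzWith c φ) {b : ℕ → ℝ} {η : ℝ} (hη : 0 < η)
    (hb : ∀ j, b (j + 1) = b j + η) (j : ℕ) (q : ℝ × ℝ) :
    1 - (c : ℝ) ≤ gm φ b η j q ∧ gm φ b η j q ≤ 1 + c := by
  have h1 := hφ.dist_le_mul (v3 (b (j + 1)) q.1 q.2) (v3 (b j) q.1 q.2)
  rw [dist_v3_first, Real.dist_eq, hb j] at h1
  have h2 : b j + η - b j = η := by ring
  rw [h2, abs_of_pos hη, abs_le] at h1
  unfold gm gu
  rw [hb j, le_div_iff₀ hη, div_le_iff₀ hη]
  constructor <;> nlinarith [h1.1, h1.2]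

theorem gu_lip (hφ : LipschitzWith c φ) (b : ℕ → ℝ) (j : ℕ) :
    LipschitzWith (c * 2) (gu φ b j) := by
  have := hφ.comp (lip_v3 (b j))
  refine LipschitzWith.of_dist_le_mul fun p q => ?_
  have h1 := this.dist_le_mul p q
  unfold gu
  rwa [dist_add_left]

theorem gm_lip (hφ : LipschitzWith c φ) {b : ℕ → ℝ} {η : ℝ} (hη : 0 < η) (j : ℕ) :
    ∃ K : ℝ≥0, LipschitzWith K (gm φ b η j) := by
  refine ⟨Real.toNNReal ((c * 2 + c * 2) / η), LipschitzWith.of_dist_le_mul fun p q => ?_⟩
  have h1 := ((gu_lip hφ b (j + 1)).sub (gu_lip hφ b j)).dist_le_mul p q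
  rw [Real.coe_toNNReal _ (by positivity)]
  unfold gm
  rw [Real.dist_eq, ← sub_div, abs_div, abs_of_pos hη, div_mul_eq_mul_div]
  rw [Real.dist_eq] at h1
  push_cast at h1
  exact div_le_div_of_nonneg_right h1 hη.le

/-- **Exact piecewise linear interpolation inside `G(S_B)`.** -/
theorem interp (hc : c < 1) (hφ : LipschitzWith c φ) {b : ℕ → ℝ} {η : ℝ} (hη : 0 < η)
    (hb : ∀ j, b (j + 1) = b j + η) (k : ℕ) :
    ∃ g ∈ GB, ∃ P : ℝ → ℝ × ℝ → ℝ, (∀ p, g p = v3 (P (p 0) (p 1, p 2)) (p 1) (p 2)) ∧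
      (∀ q, Monotone fun x => P x q) ∧ (∀ q, ∀ j ≤ k, P (b j) q = gu φ b j q) ∧
      (∀ q, ∀ x, b k ≤ x → P x q = gu φ b k q + gm φ b η k q * (x - b k)) := by
  have hc' : (c : ℝ) < 1 := by exact_mod_cast hc
  have hmono : ∀ i j, i ≤ j → b i ≤ b j := by
    intro i j hij
    induction hij with
    | refl => exact le_rfl
    | step _ ih => rw [hb]; linarith
  have hmpos : ∀ j q, 0 < gm φ b η j q := fun j q => by
    have := (gm_bounds hφ hη hb j q).1
    linarith
  have hlog : ∀ j, ∃ K : ℝ≥0, LipschitzWith K fun q => Real.log (gm φ b η j q) := by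
    intro j
    obtain ⟨K, hK⟩ := gm_lip hφ (b := b) hη j
    exact lip_log hK (a := 1 - c) (by linarith) fun q => (gm_bounds hφ hη hb j q).1
  induction k with
  | zero =>
    obtain ⟨K, hK⟩ := hlog 0
    have h1 := flowHomeo_mem isFlow_translation (LipschitzWith.const (α := ℝ × ℝ) (-(b 0)))
    have h2 := flowHomeo_mem isFlow_scaling hK
    have h3 := flowHomeo_mem isFlow_translation (gu_lip hφ b 0)
    refine ⟨_, mul_mem h3 (mul_mem h2 h1),
      fun x q => gm φ b η 0 q * (x - b 0) + gu φ b 0 q, fun p => ?_, fun q x y hxy => ?_,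
      fun q j hj => ?_, fun q x hx => ?_⟩
    · simp only [Homeomorph.mul_apply, flowHomeo_apply, v3_zero, v3_one, v3_two]
      rw [Real.exp_log (hmpos _ _)]
      rfl
    · have := hmpos 0 q
      simp only
      nlinarith
    · obtain rfl : j = 0 := by omega
      ring
    · ring
  | succ k ih =>
    obtain ⟨g, hg, P, hP, hPmono, hPgrid, hPend⟩ := ih
    obtain ⟨K1, hK1⟩ := hlog (k + 1)
    obtain ⟨K0, hK0⟩ := hlog k
    have hρ := hK1.sub hK0
    have h1 := flowHomeo_mem (isFlow_half (b (k + 1))) hρ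
    refine ⟨_, mul_mem hg h1, fun x q => P (min x (b (k + 1)) +
      Real.exp (Real.log (gm φ b η (k + 1) q) - Real.log (gm φ b η k q)) *
        max (x - b (k + 1)) 0) q, fun p => ?_, fun q x y hxy => ?_,
      fun q j hj => ?_, fun q x hx => ?_⟩
    · simp only [Homeomorph.mul_apply, flowHomeo_apply, hP, v3_zero, v3_one, v3_two]
    · exact hPmono q (half_mono _ _ hxy)
    · have h2 : b j ≤ b (k + 1) := hmono _ _ hj
      simp only
      rw [half_le h2]
      rcases Nat.lt_or_ge j (k + 1) with h | h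
      · exact hPgrid q j (by omega)
      · obtain rfl : j = k + 1 := le_antisymm hj h
        rw [hPend q _ (hmono _ _ (by omega))]
        have h3 : b (k + 1) - b k = η := by rw [hb]; ring
        rw [h3]
        unfold gm
        field_simp
        ring
    · simp only
      rw [half_ge hx]
      have hexp : Real.exp (Real.log (gm φ b η (k + 1) q) - Real.log (gm φ b η k q))
          = gm φ b η (k + 1) q / gm φ b η k q := by
        rw [Real.exp_sub, Real.exp_log (hmpos _ _), Real.exp_log (hmpos _ _)]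
      rw [hexp]
      have h4 : 0 ≤ gm φ b η (k + 1) q / gm φ b η k q * (x - b (k + 1)) :=
        mul_nonneg (div_nonneg (hmpos _ _).le (hmpos _ _).le) (by linarith)
      have h5 := hmono k (k + 1) (by omega)
      rw [hPend q _ (by linarith)]
      have h3 : b (k + 1) - b k = η := by rw [hb]; ring
      have h6 : gm φ b η k q * η = gu φ b (k + 1) q - gu φ b k q := by
        unfold gm; field_simp
      have h7 : gm φ b η k q ≠ 0 := (hmpos _ _).ne'
      have h8 : gm φ b η k q * (b (k + 1) + gm φ b η (k + 1) q / gm φ b η k q * (x - b (k + 1))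
          - b k) = gm φ b η k q * η + gm φ b η (k + 1) q * (x - b (k + 1)) := by
        have h9 : gm φ b η k q * (gm φ b η (k + 1) q / gm φ b η k q) = gm φ b η (k + 1) q :=
          mul_div_cancel₀ _ h7
        linear_combination gm φ b η k q * h3 + (x - b (k + 1)) * h9
      rw [h8, h6]
      ring

end interp

/-- a small map changing the first coordinate is a limit of members of `G(S_B)` -/
theorem small0_approx {φ : E 3 → ℝ} {c : ℝ≥0} (hc : c < 1) (hφ : LipschitzWith c φ)
    {h : E 3 ≃ₜ E 3} (hh : ∀ p, h p = v3 (p 0 + φ p) (p 1) (p 2)) :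
    Approximable (GB : Set (E 3 ≃ₜ E 3)) h := by
  have hc' : (c : ℝ) < 1 := by exact_mod_cast hc
  rw [approximable_iff_ball]
  intro R hR ε hε
  set η : ℝ := ε / 4 with hη
  have hη0 : 0 < η := by positivity
  obtain ⟨K, hK⟩ := exists_nat_gt (2 * R / η)
  set b : ℕ → ℝ := fun j => -R + j * η with hbdef
  have hb : ∀ j, b (j + 1) = b j + η := by
    intro j; simp only [hbdef]; push_cast; ring
  obtain ⟨g, hg, P, hP, hPmono, hPgrid, -⟩ := interp hc hφ hη0 hb (K + 1)
  refine ⟨g, hg, fun p hp => ?_⟩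
  have hx : |p 0| ≤ R := (coord_norm_le p 0).trans (by simpa using hp)
  rw [abs_le] at hx
  set q : ℝ × ℝ := (p 1, p 2) with hq
  -- the grid cell containing `p 0`
  have hnn : 0 ≤ (p 0 + R) / η := div_nonneg (by linarith) hη0.le
  set j := ⌊(p 0 + R) / η⌋₊ with hj
  have hj1 : (j : ℝ) ≤ (p 0 + R) / η := Nat.floor_le hnn
  have hj2 : (p 0 + R) / η < j + 1 := Nat.lt_floor_add_one _
  rw [le_div_iff₀ hη0] at hj1
  rw [div_lt_iff₀ hη0] at hj2
  have hjK : j ≤ K := by
    have h1 : (j : ℝ) * η < K * η := by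
      have := (div_lt_iff₀ hη0).1 hK
      linarith
    have h2 : (j : ℝ) < K := lt_of_mul_lt_mul_right h1 hη0.le
    exact_mod_cast h2.le
  have hbj : b j ≤ p 0 := by simp only [hbdef]; linarith
  have hbj' : p 0 ≤ b (j + 1) := by
    simp only [hbdef]; push_cast; linarith
  have e1 : P (b j) q ≤ P (p 0) q := hPmono q hbj
  have e2 : P (p 0) q ≤ P (b (j + 1)) q := hPmono q hbj'
  rw [hPgrid q j (by omega)] at e1
  rw [hPgrid q (j + 1) (by omega)] at e2
  -- the same for `F`
  have hFmono : ∀ x y : ℝ, x ≤ y → x + φ (v3 x q.1 q.2) ≤ y + φ (v3 y q.1 q.2) := by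
    intro x y hxy
    have h1 := hφ.dist_le_mul (v3 x q.1 q.2) (v3 y q.1 q.2)
    have h2 : |x - y| = y - x := by rw [abs_sub_comm, abs_of_nonneg (by linarith)]
    rw [dist_v3_first, Real.dist_eq, h2, abs_le] at h1
    nlinarith [h1.2]
  have hpq : p = v3 (p 0) q.1 q.2 := by apply ext3 <;> simp [hq]
  have e3 := hFmono _ _ hbj
  have e4 := hFmono _ _ hbj'
  rw [← hpq] at e3 e4
  have e5 := (gm_bounds hφ hη0 hb j q).2
  unfold gm at e5
  rw [div_le_iff₀ hη0] at e5
  have e6 : gu φ b (j + 1) q - gu φ b j q ≤ 2 * η := by nlinarith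
  have e7 : gu φ b j q = b j + φ (v3 (b j) q.1 q.2) := rfl
  have e8 : gu φ b (j + 1) q = b (j + 1) + φ (v3 (b (j + 1)) q.1 q.2) := rfl
  have e9 : dist (g p) (h p) = |P (p 0) q - (p 0 + φ p)| := by
    rw [hP, hh, EuclideanSpace.dist_eq, Fin.sum_univ_three]
    simp [Real.dist_eq, Real.sqrt_sq_eq_abs, hq]
  rw [e9, abs_lt]
  constructor <;> linarith

/-- a small map changing one coordinate is a limit of members of `G(S_B)` -/
theorem small_approx {h : E 3 ≃ₜ E 3} (hh : h ∈ SmallA 3) :
    Approximable (GB : Set (E 3 ≃ₜ E 3)) h := by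
  have hmul : ∀ a ∈ (GB : Set (E 3 ≃ₜ E 3)), ∀ b ∈ (GB : Set (E 3 ≃ₜ E 3)),
      a * b ∈ (GB : Set (E 3 ≃ₜ E 3)) := fun a ha b hb => mul_mem ha hb
  have hcyc_dist : ∀ p q : E 3, dist (cyc p) (cyc q) = dist p q := by
    intro p q
    rw [EuclideanSpace.dist_eq, EuclideanSpace.dist_eq, Fin.sum_univ_three, Fin.sum_univ_three]
    simp only [cyc_apply, v3_zero, v3_one, v3_two]
    congr 1
    ring
  have hcyc_dist' : ∀ p q : E 3, dist (cyc.symm p) (cyc.symm q) = dist p q := by
    intro p q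
    rw [← hcyc_dist, Homeomorph.apply_symm_apply, Homeomorph.apply_symm_apply]
  have hc1 : Approximable (GB : Set (E 3 ≃ₜ E 3)) cyc := Approximable.of_mem cyc_mem
  have hc2 : Approximable (GB : Set (E 3 ≃ₜ E 3)) cyc⁻¹ := Approximable.of_mem (inv_mem cyc_mem)
  obtain ⟨i, c, hc, φ, hφ, hhφ⟩ := hh
  fin_cases i
  · refine small0_approx hc hφ fun p => ?_
    rw [hhφ]
    apply ext3 <;> simp
  · -- the second coordinate
    have h1 : Approximable (GB : Set (E 3 ≃ₜ E 3)) (cyc * h * cyc⁻¹) := by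
      refine small0_approx (φ := fun p => φ (cyc.symm p)) hc ?_ fun p => ?_
      · refine LipschitzWith.of_dist_le_mul fun p q => ?_
        rw [← hcyc_dist' p q]
        exact hφ.dist_le_mul _ _
      · simp only [Homeomorph.mul_apply, Homeomorph.inv_apply, hhφ]
        apply ext3 <;> simp [cyc_apply, cyc_symm_apply]
    have h2 : h = cyc⁻¹ * (cyc * h * cyc⁻¹) * cyc := by group
    rw [h2]
    exact (hc2.mul hmul h1).mul hmul hc1
  · have h1 : Approximable (GB : Set (E 3 ≃ₜ E 3)) (cyc⁻¹ * h * cyc) := by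
      refine small0_approx (φ := fun p => φ (cyc p)) hc ?_ fun p => ?_
      · refine LipschitzWith.of_dist_le_mul fun p q => ?_
        rw [← hcyc_dist p q]
        exact hφ.dist_le_mul _ _
      · simp only [Homeomorph.mul_apply, Homeomorph.inv_apply, hhφ]
        apply ext3 <;> simp [cyc_apply, cyc_symm_apply]
    have h2 : h = cyc * (cyc⁻¹ * h * cyc) * cyc⁻¹ := by group
    rw [h2]
    exact (hc1.mul hmul h1).mul hmul hc2

end Pool.Agent.J6H45.CoordRestr
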