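import Pool.Agent.J6H45.CoordRestr.Diffeo

/-!
# The group generated by the homeomorphisms of type B: basic members
-/

open scoped NNReal Topology
open Set

namespace Pool.Agent.J6H45.CoordRestr

/-- the point with given coordinates -/
def v3 (a b c : ℝ) : E 3 := WithLp.toLp 2 ![a, b, c]

@[simp] theorem v3_zero (a b c : ℝ) : v3 a b c 0 = a := rfl
@[simp] theorem v3_one (a b c : ℝ) : v3 a b c 1 = b := rfl
@[simp] theorem v3_two (a b c : ℝ) : v3 a b c 2 = c := rfl

theorem ext3 {p q : E 3} (h0 : p 0 = q 0) (h1 : p 1 = q 1) (h2 : p 2 = q 2) : p = q := by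
  ext i
  fin_cases i
  · exact h0
  · exact h1
  · exact h2

theorem continuous_v3 {X : Type*} [TopologicalSpace X] {a b c : X → ℝ} (ha : Continuous a)
    (hb : Continuous b) (hc : Continuous c) : Continuous fun x => v3 (a x) (b x) (c x) := by
  refine (PiLp.continuous_toLp 2 _).comp (continuous_pi fun j => ?_)
  fin_cases j
  · exact ha
  · exact hb
  · exact hc

/-- the cyclic permutation `(x, y, z) ↦ (y, z, x)` -/
def cyc : E 3 ≃ₜ E 3 where
  toFun p := v3 (p 1) (p 2) (p 0)
  invFun p := v3 (p 2) (p 0) (p 1)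
  left_inv p := by apply ext3 <;> simp
  right_inv p := by apply ext3 <;> simp
  continuous_toFun := continuous_v3 (by fun_prop) (by fun_prop) (by fun_prop)
  continuous_invFun := continuous_v3 (by fun_prop) (by fun_prop) (by fun_prop)

theorem cyc_apply (p : E 3) : cyc p = v3 (p 1) (p 2) (p 0) := rfl
theorem cyc_symm_apply (p : E 3) : cyc.symm p = v3 (p 2) (p 0) (p 1) := rfl

theorem cyc_mem : cyc ∈ GB :=
  Subgroup.subset_closure ⟨fun q => q.1, fun q => q.2, fun q => q.1, by fun_prop, by fun_prop,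
    by fun_prop, fun p => by simp [cyc_apply]⟩

/-- maps of the form `x ↦ α (x, y)` are in `G(S_B)` -/
theorem mem_GB_01 {k : E 3 ≃ₜ E 3} {α : ℝ × ℝ → ℝ} (hα : Continuous α)
    (hk : ∀ p, k p = v3 (α (p 0, p 1)) (p 1) (p 2)) : k ∈ GB := by
  have h1 : cyc * k ∈ GB :=
    Subgroup.subset_closure ⟨fun q => q.1, fun q => q.2, α, by fun_prop, by fun_prop,
      hα, fun p => by simp [cyc_apply, hk]⟩
  have h2 : k = cyc⁻¹ * (cyc * k) := by group
  rw [h2]
  exact mul_mem (inv_mem cyc_mem) h1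

/-- maps of the form `y ↦ β (y, z)` are in `G(S_B)` -/
theorem mem_GB_12 {k : E 3 ≃ₜ E 3} {β : ℝ × ℝ → ℝ} (hβ : Continuous β)
    (hk : ∀ p, k p = v3 (p 0) (β (p 1, p 2)) (p 2)) : k ∈ GB := by
  have h1 : cyc * k * cyc⁻¹ ∈ GB := by
    refine mem_GB_01 hβ fun p => ?_
    simp only [Homeomorph.mul_apply, Homeomorph.inv_apply, cyc_symm_apply, hk, cyc_apply]
    apply ext3 <;> simp
  have h2 : k = cyc⁻¹ * (cyc * k * cyc⁻¹) * cyc := by group
  rw [h2]
  exact mul_mem (mul_mem (inv_mem cyc_mem) h1) cyc_mem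

/-- a continuous flow on the line, as a function of position and time -/
structure IsFlow (α : ℝ × ℝ → ℝ) : Prop where
  cont : Continuous α
  zero : ∀ x, α (x, 0) = x
  add : ∀ x s t, α (x, s + t) = α (α (x, t), s)

/-- the homeomorphism `x ↦ α (x, ρ (y, z))` -/
def flowHomeo {α : ℝ × ℝ → ℝ} (hα : IsFlow α) {ρ : ℝ × ℝ → ℝ} (hρ : Continuous ρ) :
    E 3 ≃ₜ E 3 where
  toFun p := v3 (α (p 0, ρ (p 1, p 2))) (p 1) (p 2)
  invFun p := v3 (α (p 0, -ρ (p 1, p 2))) (p 1) (p 2)
  left_inv p := by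
    apply ext3
    · simp only [v3_zero, v3_one, v3_two]
      rw [← hα.add, neg_add_cancel, hα.zero]
    · simp
    · simp
  right_inv p := by
    apply ext3
    · simp only [v3_zero, v3_one, v3_two]
      rw [← hα.add, add_neg_cancel, hα.zero]
    · simp
    · simp
  continuous_toFun := by
    have := hα.cont
    exact continuous_v3 (by fun_prop) (by fun_prop) (by fun_prop)
  continuous_invFun := by
    have := hα.cont
    exact continuous_v3 (by fun_prop) (by fun_prop) (by fun_prop)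

theorem flowHomeo_apply {α : ℝ × ℝ → ℝ} (hα : IsFlow α) {ρ : ℝ × ℝ → ℝ} (hρ : Continuous ρ)
    (p : E 3) : flowHomeo hα hρ p = v3 (α (p 0, ρ (p 1, p 2))) (p 1) (p 2) := rfl

theorem flowHomeo_symm_apply {α : ℝ × ℝ → ℝ} (hα : IsFlow α) {ρ : ℝ × ℝ → ℝ} (hρ : Continuous ρ)
    (p : E 3) : (flowHomeo hα hρ).symm p = v3 (α (p 0, -ρ (p 1, p 2))) (p 1) (p 2) := rfl

/-- `(p 1, p 2)` is a `1`-Lipschitz function of `p` -/
theorem lip_pair : LipschitzWith 1 fun p : E 3 => (p 1, p 2) := by
  have := (coord_lip (n := 3) 1).prodMk (coord_lip (n := 3) 2)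
  simpa using this

/-- **Key commutator.** For a Lipschitz function `ρ` of `(y, z)` the homeomorphism
`x ↦ α (x, ρ (y, z))` is a commutator of two-variable maps. -/
theorem flowHomeo_mem {α : ℝ × ℝ → ℝ} (hα : IsFlow α) {ρ : ℝ × ℝ → ℝ} {K : ℝ≥0}
    (hρ : LipschitzWith K ρ) : flowHomeo hα hρ.continuous ∈ GB := by
  set L : ℝ := K + 1 with hL
  have hL0 : 0 < L := by positivity
  have hlip : LipschitzWith (Real.toNNReal (K / L))
      (fun p : E 3 => (ρ (p 1, p 2) / L) • EuclideanSpace.single (1 : Fin 3) (1 : ℝ)) := by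
    refine LipschitzWith.of_dist_le_mul fun p q => ?_
    rw [dist_eq_norm, ← sub_smul, norm_smul, PiLp.norm_single, norm_one, mul_one, ← sub_div,
      norm_div, Real.norm_of_nonneg hL0.le, Real.coe_toNNReal _ (by positivity)]
    have h1 := (hρ.comp lip_pair).dist_le_mul p q
    rw [mul_one, Real.dist_eq] at h1
    rw [div_mul_eq_mul_div]
    exact div_le_div_of_nonneg_right h1 hL0.le
  have hc : Real.toNNReal (K / L) < 1 := by
    rw [← NNReal.coe_lt_coe, Real.coe_toNNReal _ (by positivity), NNReal.coe_one,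
      div_lt_one hL0]
    linarith
  obtain ⟨b, hb⟩ := exists_homeo_of_lip hc hlip
  have hb' : ∀ p : E 3, b p = v3 (p 0) (p 1 + ρ (p 1, p 2) / L) (p 2) := by
    intro p
    rw [hb]
    apply ext3 <;> simp
  have hρc := hρ.continuous
  have hbmem : b ∈ GB := mem_GB_12 (β := fun q => q.1 + ρ q / L) (by fun_prop) hb'
  have hLc : Continuous fun q : ℝ × ℝ => L * q.1 := by fun_prop
  have hαc := hα.cont
  have htmem : flowHomeo hα hLc ∈ GB :=
    mem_GB_01 (α := fun q => α (q.1, L * q.2)) (by fun_prop) fun p => rfl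
  have key : flowHomeo hα hρ.continuous
      = (flowHomeo hα hLc)⁻¹ * (b⁻¹ * (flowHomeo hα hLc * b)) := by
    ext1 p
    simp only [Homeomorph.mul_apply, Homeomorph.inv_apply]
    have e1 : flowHomeo hα hLc (b p)
        = b (v3 (α (p 0, L * (p 1 + ρ (p 1, p 2) / L))) (p 1) (p 2)) := by
      rw [hb', hb', flowHomeo_apply]
      apply ext3 <;> simp
    rw [e1, Homeomorph.symm_apply_apply, flowHomeo_symm_apply, flowHomeo_apply]
    apply ext3
    · simp only [v3_zero, v3_one, v3_two]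
      rw [← hα.add]
      congr 2
      field_simp
      ring
    · simp
    · simp
  rw [key]
  exact mul_mem (inv_mem htmem) (mul_mem (inv_mem hbmem) (mul_mem htmem hbmem))

end Pool.Agent.J6H45.CoordRestr
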